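import Pool.Agent.D0H36.BL.Fr2P

/-!
# The sign reversing involution
-/

set_option autoImplicit false

namespace Pool.Agent.D0H36.BL

open Finset Polynomial Pool.Agent.H207R2.BL

theorem chr_of_iso {V W : Type} [Finite V] [Finite W] {G : SimpleGraph V} {H : SimpleGraph W}
    (e : G ≃g H) : chr G = chr H := by
  refine eq_chr (p := chr G) ?_
  intro k
  rw [chr_spec G k]
  congr 1
  refine Nat.card_congr ?_
  exact
    { toFun := fun f => f.comp e.symm.toHom
      invFun := fun f => f.comp e.toHom
      left_inv := fun f => RelHom.ext fun v => by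
        show f (e.symm (e v)) = f v
        rw [RelIso.symm_apply_apply]
      right_inv := fun f => RelHom.ext fun v => by
        show f (e (e.symm v)) = f v
        rw [RelIso.apply_symm_apply] }

section

variable {h n : ℕ}

/-- the graph looks on `W` like the graph on `Fin h` -/
noncomputable def lookIso (G : SimpleGraph (Fin n)) {W : Finset (Fin n)} (hW : W.card = h) :
    G.comap (W.orderEmbOfFin hW) ≃g G.induce (W : Set (Fin n)) where
  toEquiv := Equiv.ofBijective (fun i => ⟨W.orderEmbOfFin hW i, Finset.orderEmbOfFin_mem _ _ _⟩) (by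
    constructor
    · intro i j hij
      exact (W.orderEmbOfFin hW).injective (congrArg Subtype.val hij)
    · rintro ⟨z, hz⟩
      obtain ⟨i, hi⟩ := exists_en hW hz
      exact ⟨i, Subtype.ext hi⟩)
  map_rel_iff' := by
    intro i j
    exact Iff.rfl

theorem site_chr (hP : S_PROD) {T : Set (SimpleGraph (Fin h))} {G : SimpleGraph (Fin n)}
    {W : Finset (Fin n)} (hs : Site T G W) (q : ℝ) :
    q * (chr G).eval q = (q - 1) * ((chr (G.comap (W.orderEmbOfFin hs.card))).eval q *
      (chr (G.induce ((W : Set (Fin n))ᶜ))).eval q) := by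
  obtain ⟨r, x, hr, hx, hrx⟩ := hs.one
  have h1 := (hP (Fin n) G (W : Set (Fin n))).2 r x hr hx hrx
  have h2 := congrArg (fun p : ℝ[X] => p.eval q) h1
  simp only [eval_mul, eval_X, eval_sub, eval_one] at h2
  rw [chr_of_iso (lookIso G hs.card)]
  exact h2

open Classical in
/-- the set of the sites -/
noncomputable def sitesOf (T : Set (SimpleGraph (Fin h))) (G : SimpleGraph (Fin n)) :
    Finset (Finset (Fin n)) := univ.filter (fun W => Site T G W)

open Classical in
/-- a choice of a member of a set of sets -/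
noncomputable def pick (S : Finset (Finset (Fin n))) : Finset (Fin n) :=
  if hS : S.Nonempty then hS.choose else ∅

theorem pick_mem {S : Finset (Finset (Fin n))} (hS : S.Nonempty) : pick S ∈ S := by
  unfold pick
  rw [dif_pos hS]
  exact hS.choose_spec

theorem mem_sitesOf {T : Set (SimpleGraph (Fin h))} {G : SimpleGraph (Fin n)} {W : Finset (Fin n)} :
    W ∈ sitesOf T G ↔ Site T G W := by
  classical
  simp [sitesOf]

theorem pick_site {T : Set (SimpleGraph (Fin h))} {G : SimpleGraph (Fin n)}
    (hG : ∃ W, Site T G W) : Site T G (pick (sitesOf T G)) := by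
  obtain ⟨W, hW⟩ := hG
  exact mem_sitesOf.1 (pick_mem ⟨W, mem_sitesOf.2 hW⟩)

open Classical in
/-- the other one of two graphs -/
noncomputable def oth (A B K : SimpleGraph (Fin h)) : SimpleGraph (Fin h) := if K = A then B else A

open Classical in
/-- the involution -/
noncomputable def flip (A B : SimpleGraph (Fin h)) (G : SimpleGraph (Fin n)) : SimpleGraph (Fin n) :=
  if hG : ∃ W, Site {A, B} G W then
    repl G (pick (sitesOf {A, B} G)) (pick_site hG).card
      (oth A B (G.comap ((pick (sitesOf {A, B} G)).orderEmbOfFin (pick_site hG).card)))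
  else G

variable {A B : SimpleGraph (Fin h)}

theorem oth_mem (K : SimpleGraph (Fin h)) : oth A B K ∈ ({A, B} : Set (SimpleGraph (Fin h))) := by
  classical
  unfold oth
  split_ifs
  · exact Or.inr rfl
  · exact Or.inl rfl

theorem oth_oth (hAB : A ≠ B) {K : SimpleGraph (Fin h)} (hK : K ∈ ({A, B} : Set _)) :
    oth A B (oth A B K) = K := by
  classical
  unfold oth
  rcases hK with hK | hK
  · rw [if_pos hK, if_neg hAB.symm, hK]
  · have hK' : K = B := hK
    rw [hK', if_neg hAB.symm, if_pos rfl]

theorem flip_eq {G : SimpleGraph (Fin n)} (hG : ∃ W, Site {A, B} G W) :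
    flip A B G = repl G (pick (sitesOf {A, B} G)) (pick_site hG).card
      (oth A B (G.comap ((pick (sitesOf {A, B} G)).orderEmbOfFin (pick_site hG).card))) := by
  classical
  unfold flip
  rw [dif_pos hG]

variable (hT : ∀ K ∈ ({A, B} : Set (SimpleGraph (Fin h))), TwoEdge K)

include hT in
theorem sitesOf_flip {G : SimpleGraph (Fin n)} (hG : ∃ W, Site {A, B} G W) :
    sitesOf {A, B} (flip A B G) = sitesOf {A, B} G := by
  ext W'
  rw [mem_sitesOf, mem_sitesOf, flip_eq hG]
  exact site_repl_iff hT (pick_site hG) (oth_mem _) W'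

include hT in
theorem has_flip {G : SimpleGraph (Fin n)} (hG : ∃ W, Site {A, B} G W) :
    ∃ W, Site {A, B} (flip A B G) W := by
  obtain ⟨W, hW⟩ := hG
  refine ⟨W, mem_sitesOf.1 ?_⟩
  rw [sitesOf_flip hT ⟨W, hW⟩]
  exact mem_sitesOf.2 hW

theorem repl_congr {G : SimpleGraph (Fin n)} {W W' : Finset (Fin n)} (hWW : W = W')
    (hW : W.card = h) (hW' : W'.card = h) {K K' : SimpleGraph (Fin h)} (hK : K = K') :
    repl G W hW K = repl G W' hW' K' := by
  subst hWW
  subst hK
  rfl

theorem comap_congr' {G : SimpleGraph (Fin n)} {W W' : Finset (Fin n)} (hWW : W = W')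
    (hW : W.card = h) (hW' : W'.card = h) :
    G.comap (W.orderEmbOfFin hW) = G.comap (W'.orderEmbOfFin hW') := by
  subst hWW
  rfl

include hT in
theorem flip_flip (hAB : A ≠ B) {G : SimpleGraph (Fin n)} (hG : ∃ W, Site {A, B} G W) :
    flip A B (flip A B G) = G := by
  have hG' := has_flip hT hG
  have h1 : pick (sitesOf {A, B} (flip A B G)) = pick (sitesOf {A, B} G) := by
    rw [sitesOf_flip hT hG]
  have h2 := flip_eq hG
  rw [flip_eq hG']
  have hK := (pick_site hG).look
  rw [repl_congr h1 _ (pick_site hG).card (K' := G.comap ((pick (sitesOf {A, B} G)).orderEmbOfFin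
    (pick_site hG).card))]
  · conv_lhs => rw [h2]
    exact repl_repl _ _ _ _ _ rfl
  · rw [comap_congr' h1 _ (pick_site hG).card]
    rw [h2, repl_look]
    exact oth_oth hAB hK

theorem cls_flip {𝒞 : ∀ V : Type, SimpleGraph V → Prop} {d : ℕ} (hC : Cls 𝒞 d)
    (hcl : ∀ K ∈ ({A, B} : Set (SimpleGraph (Fin h))), 𝒞 _ K)
    {G : SimpleGraph (Fin n)} (hG : ∃ W, Site {A, B} G W) (hm : 𝒞 _ G) : 𝒞 _ (flip A B G) := by
  rw [flip_eq hG]
  exact cls_repl hC (pick_site hG) (hcl _ (oth_mem _)) hm

/-- the sign changes -/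
theorem sign_flip (hP : S_PROD) {q : ℝ} (hq : 1 < q) (hA : 0 < (chr A).eval q)
    (hB : (chr B).eval q < 0) {G : SimpleGraph (Fin n)}
    (hG : ∃ W, Site {A, B} G W) :
    (0 < (chr G).eval q → (chr (flip A B G)).eval q < 0) ∧
      ((chr G).eval q < 0 → 0 < (chr (flip A B G)).eval q) := by
  have hs := pick_site hG
  set W := pick (sitesOf {A, B} G) with hW
  set K := G.comap (W.orderEmbOfFin hs.card) with hK
  have h1 := site_chr hP hs q
  have hs' : Site {A, B} (repl G W hs.card (oth A B K)) W := site_repl hs (oth_mem K)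
  have h2 := site_chr hP hs' q
  have h3 : (repl G W hs.card (oth A B K)).comap (W.orderEmbOfFin hs'.card) = oth A B K :=
    repl_look _ _ _ _
  have h4 : (repl G W hs.card (oth A B K)).induce ((W : Set (Fin n))ᶜ) =
      G.induce ((W : Set (Fin n))ᶜ) := by
    ext a b
    exact repl_off _ _ _ _ (fun h => a.2 h.1)
  rw [h3, h4] at h2
  have h5 : flip A B G = repl G W hs.card (oth A B K) := flip_eq hG
  rw [h5]
  have hAB : A ≠ B := by
    intro h
    rw [h] at hA
    linarith
  set R := (chr (G.induce ((W : Set (Fin n))ᶜ))).eval q with hR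
  have hq1 : 0 < q - 1 := by linarith
  have hq0 : 0 < q := by linarith
  have hcase : (K = A ∧ oth A B K = B) ∨ (K = B ∧ oth A B K = A) := by
    classical
    rcases hs.look with h | h
    · left
      have hKA : K = A := h
      exact ⟨hKA, by unfold oth; rw [if_pos hKA]⟩
    · right
      have hKB : K = B := h
      exact ⟨hKB, by unfold oth; rw [hKB, if_neg hAB.symm]⟩
  rw [← hK] at h1
  set P := (chr G).eval q with hPdef
  set P' := (chr (repl G W hs.card (oth A B K))).eval q with hP'def
  have hsg : ∀ {x y : ℝ}, q * x = (q - 1) * y → (0 < x → 0 < y) ∧ (x < 0 → y < 0) ∧ (0 < y → 0 < x) ∧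
      (y < 0 → x < 0) := by
    intro x y hxy
    refine ⟨fun h => ?_, fun h => ?_, fun h => ?_, fun h => ?_⟩
    · by_contra hcon
      push Not at hcon
      nlinarith [mul_pos hq0 h]
    · by_contra hcon
      push Not at hcon
      nlinarith [mul_pos_of_neg_of_neg h (by linarith : -q < 0)]
    · by_contra hcon
      push Not at hcon
      nlinarith [mul_pos hq1 h]
    · by_contra hcon
      push Not at hcon
      nlinarith [mul_pos_of_neg_of_neg h (by linarith : -(q - 1) < 0)]
  rcases hcase with ⟨h6, h7⟩ | ⟨h6, h7⟩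
  · rw [h6] at h1
    rw [h7] at h2
    constructor
    · intro hp
      have h8 : 0 < R := by
        have := (hsg h1).1 hp
        exact (pos_iff_pos_of_mul_pos this).1 hA
      exact (hsg h2).2.2.2 (mul_neg_of_neg_of_pos hB h8)
    · intro hp
      have h8 : R < 0 := by
        have := (hsg h1).2.1 hp
        by_contra hcon
        push Not at hcon
        nlinarith [mul_nonneg hA.le hcon]
      exact (hsg h2).2.2.1 (mul_pos_of_neg_of_neg hB h8)
  · rw [h6] at h1
    rw [h7] at h2
    constructor
    · intro hp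
      have h8 : R < 0 := by
        have := (hsg h1).1 hp
        by_contra hcon
        push Not at hcon
        nlinarith [mul_nonneg (neg_nonneg.2 hB.le) hcon]
      exact (hsg h2).2.2.2 (mul_neg_of_pos_of_neg hA h8)
    · intro hp
      have h8 : 0 < R := by
        have := (hsg h1).2.1 hp
        by_contra hcon
        push Not at hcon
        nlinarith [mul_nonneg_of_nonpos_of_nonpos hB.le hcon]
      exact (hsg h2).2.2.1 (mul_pos hA h8)

/-- as many positive as negative values among the graphs with a site -/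
theorem balanced {𝒞 : ∀ V : Type, SimpleGraph V → Prop} {d : ℕ} (hC : Cls 𝒞 d) (hP : S_PROD)
    (hT : ∀ K ∈ ({A, B} : Set (SimpleGraph (Fin h))), TwoEdge K)
    (hcl : ∀ K ∈ ({A, B} : Set (SimpleGraph (Fin h))), 𝒞 _ K)
    {q : ℝ} (hq : 1 < q) (hA : 0 < (chr A).eval q) (hB : (chr B).eval q < 0) (n : ℕ) :
    cnt 𝒞 n (fun G => (∃ W, Site {A, B} G W) ∧ 0 < (chr G).eval q) =
      cnt 𝒞 n (fun G => (∃ W, Site {A, B} G W) ∧ (chr G).eval q < 0) := by
  classical
  have hAB : A ≠ B := by
    intro h
    rw [h] at hA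
    linarith
  rw [cnt_eq, cnt_eq]
  refine Finset.card_nbij' (flip A B) (flip A B) ?_ ?_ ?_ ?_
  · intro G hG
    obtain ⟨_, h1, h2, h3⟩ := Finset.mem_filter.1 (Finset.mem_coe.1 hG)
    exact Finset.mem_coe.2 (Finset.mem_filter.2 ⟨Finset.mem_univ _, cls_flip hC hcl h2 h1,
      has_flip hT h2, (sign_flip hP hq hA hB h2).1 h3⟩)
  · intro G hG
    obtain ⟨_, h1, h2, h3⟩ := Finset.mem_filter.1 (Finset.mem_coe.1 hG)
    exact Finset.mem_coe.2 (Finset.mem_filter.2 ⟨Finset.mem_univ _, cls_flip hC hcl h2 h1,
      has_flip hT h2, (sign_flip hP hq hA hB h2).2 h3⟩)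
  · intro G hG
    exact flip_flip hT hAB (Finset.mem_filter.1 (Finset.mem_coe.1 hG)).2.2.1
  · intro G hG
    exact flip_flip hT hAB (Finset.mem_filter.1 (Finset.mem_coe.1 hG)).2.2.1

end

end Pool.Agent.D0H36.BL
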