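import Pool.Agent.D0H36.BL.FrP

/-!
# Few graphs without sites: the count
-/

set_option autoImplicit false

namespace Pool.Agent.D0H36.BL

open Finset

theorem cnt_eq (𝒞 : ∀ V : Type, SimpleGraph V → Prop) (n : ℕ) (p : SimpleGraph (Fin n) → Prop)
    [DecidablePred fun G => 𝒞 (Fin n) G ∧ p G] :
    cnt 𝒞 n p = (univ.filter (fun G : SimpleGraph (Fin n) => 𝒞 (Fin n) G ∧ p G)).card := by
  unfold cnt
  rw [Nat.card_eq_fintype_card, Fintype.card_subtype]

theorem num_pow {𝒞 : ∀ V : Type, SimpleGraph V → Prop} {C0 : ℕ}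
    (hC0 : ∀ n : ℕ, 4 ≤ n → num 𝒞 (n + 1) ≤ C0 * n * num 𝒞 n) (n : ℕ) (hn : 4 ≤ n) (k : ℕ) :
    num 𝒞 (n + k) ≤ C0 ^ k * (n + k) ^ k * num 𝒞 n := by
  induction k with
  | zero => simp
  | succ k ih =>
    have h1 := hC0 (n + k) (by omega)
    calc num 𝒞 (n + (k + 1)) ≤ C0 * (n + k) * num 𝒞 (n + k) := h1
      _ ≤ C0 * (n + k) * (C0 ^ k * (n + k) ^ k * num 𝒞 n) := Nat.mul_le_mul_left _ ih
      _ = C0 ^ (k + 1) * (n + k) ^ (k + 1) * num 𝒞 n := by ring
      _ ≤ C0 ^ (k + 1) * (n + (k + 1)) ^ (k + 1) * num 𝒞 n := by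
        apply Nat.mul_le_mul_right
        apply Nat.mul_le_mul_left
        exact Nat.pow_le_pow_left (by omega) _

theorem free_count {𝒞 : ∀ V : Type, SimpleGraph V → Prop} {d : ℕ} (hC : Cls 𝒞 d) {h : ℕ}
    (hh : 0 < h) {T : Set (SimpleGraph (Fin h))} (hT : ∀ A ∈ T, 𝒞 (Fin h) A ∧ TwoEdge A)
    {A : SimpleGraph (Fin h)} (hA : A ∈ T) (n : ℕ) :
    cnt 𝒞 n (fun G => ∀ W, ¬ Site T G W) * ((n + h).choose h * n) ≤ 2 * num 𝒞 (n + h) := by
  classical
  have hT2 : ∀ A ∈ T, TwoEdge A := fun A hA => (hT A hA).2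
  set F : Finset (SimpleGraph (Fin n)) :=
    univ.filter (fun G => 𝒞 (Fin n) G ∧ ∀ W, ¬ Site T G W) with hF
  have e1 : cnt 𝒞 n (fun G => ∀ W, ¬ Site T G W) = F.card := cnt_eq _ _ _
  set t : Finset (SimpleGraph (Fin (n + h))) := univ.filter (fun G => 𝒞 (Fin (n + h)) G ∧ True) with ht
  have e2 : num 𝒞 (n + h) = t.card := cnt_eq _ _ _
  let S : Finset (SimpleGraph (Fin n) × Finset (Fin (n + h)) × Fin n) :=
    F ×ˢ (powersetCard h (univ : Finset (Fin (n + h)))) ×ˢ (univ : Finset (Fin n))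
  have hS : S.card = F.card * ((n + h).choose h * n) := by
    simp only [S, card_product, card_powersetCard, card_univ, Fintype.card_fin]
  let f : SimpleGraph (Fin n) × Finset (Fin (n + h)) × Fin n → SimpleGraph (Fin (n + h)) :=
    fun p => if hW : p.2.1.card = h then insG hW p.1 A ⟨0, hh⟩ p.2.2 else ⊥
  have hmS : ∀ p, p ∈ S → ∃ hW : p.2.1.card = h, (𝒞 (Fin n) p.1 ∧ ∀ W, ¬ Site T p.1 W) ∧
      f p = insG hW p.1 A ⟨0, hh⟩ p.2.2 := by
    intro p hp
    have h1 := Finset.mem_product.1 hp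
    have h2 := Finset.mem_product.1 h1.2
    have hW : p.2.1.card = h := (Finset.mem_powersetCard.1 h2.1).2
    refine ⟨hW, (Finset.mem_filter.1 h1.1).2, ?_⟩
    simp only [f, dif_pos hW]
  rw [e1, e2, ← hS]
  refine Finset.card_le_mul_card_image_of_maps_to (f := f) ?_ 2 ?_
  · intro p hp
    obtain ⟨hW, ⟨h1, _⟩, h2⟩ := hmS p hp
    rw [h2]
    exact Finset.mem_filter.2 ⟨Finset.mem_univ _, cls_insG hW _ _ _ _ hC (hT A hA).1 h1, trivial⟩
  · intro b hb
    rcases (S.filter (fun a => f a = b)).eq_empty_or_nonempty with he | ⟨p0, hp0⟩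
    · rw [he]
      simp
    · obtain ⟨hp0S, hp0b⟩ := Finset.mem_filter.1 hp0
      obtain ⟨hW0, ⟨_, hfree0⟩, hf0⟩ := hmS p0 hp0S
      have hinj : Set.InjOn (fun p : SimpleGraph (Fin n) × Finset (Fin (n + h)) × Fin n => p.2.1)
          (S.filter (fun a => f a = b) : Finset _) := by
        intro p hp p' hp' hpp
        obtain ⟨hpS, hpb⟩ := Finset.mem_filter.1 (Finset.mem_coe.1 hp)
        obtain ⟨hpS', hpb'⟩ := Finset.mem_filter.1 (Finset.mem_coe.1 hp')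
        obtain ⟨hW, _, hf⟩ := hmS p hpS
        obtain ⟨hW', _, hf'⟩ := hmS p' hpS'
        obtain ⟨G, W, x⟩ := p
        obtain ⟨G', W', x'⟩ := p'
        simp only at hpp hW hW' hf hf'
        subst hpp
        have h1 : insG hW G A ⟨0, hh⟩ x = insG hW G' A ⟨0, hh⟩ x' := by
          rw [← hf, ← hf', hpb, hpb']
        obtain ⟨h2, h3⟩ := insG_inj hW A _ h1
        rw [h2, h3]
      rw [← Finset.card_image_of_injOn hinj]
      refine sites_le hW0 p0.1 A ⟨0, hh⟩ p0.2.2 hT2 hA hfree0 _ ?_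
      intro W' hW'
      obtain ⟨p, hp, rfl⟩ := Finset.mem_image.1 hW'
      obtain ⟨hpS, hpb⟩ := Finset.mem_filter.1 hp
      obtain ⟨hW, _, hf⟩ := hmS p hpS
      rw [← hf0, hp0b, ← hpb, hf]
      exact site_insG hW _ _ _ _ hA

theorem fr (hR : S_RATIO) : S_FREE := by
  intro 𝒞 d hC h hh T hTne hT
  obtain ⟨C0, hC0⟩ := hR 𝒞 d hC
  obtain ⟨A, hA⟩ := hTne
  refine ⟨h.factorial * 2 * C0 ^ h * (h + 1) ^ h, fun n hn => ?_⟩
  have h1 := free_count hC hh hT hA n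
  have h2 := num_pow hC0 n hn h
  set F := cnt 𝒞 n (fun G => ∀ W, ¬ Site T G W) with hF
  have h3 : n ^ h ≤ h.factorial * (n + h).choose h := by
    rw [← Nat.ascFactorial_eq_factorial_mul_choose]
    exact (Nat.pow_le_pow_left (Nat.le_succ n) h).trans (Nat.pow_succ_le_ascFactorial (n + 1) h)
  have h4 : (n + h) ^ h ≤ (h + 1) ^ h * n ^ h := by
    rw [← mul_pow]
    apply Nat.pow_le_pow_left
    nlinarith
  have h5 : n ^ h * (n * F) ≤ n ^ h * (h.factorial * 2 * C0 ^ h * (h + 1) ^ h * num 𝒞 n) := by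
    calc n ^ h * (n * F) ≤ (h.factorial * (n + h).choose h) * (n * F) := Nat.mul_le_mul_right _ h3
      _ = h.factorial * (F * ((n + h).choose h * n)) := by ring
      _ ≤ h.factorial * (2 * num 𝒞 (n + h)) := Nat.mul_le_mul_left _ h1
      _ ≤ h.factorial * (2 * (C0 ^ h * (n + h) ^ h * num 𝒞 n)) := by
        apply Nat.mul_le_mul_left
        exact Nat.mul_le_mul_left _ h2
      _ ≤ h.factorial * (2 * (C0 ^ h * ((h + 1) ^ h * n ^ h) * num 𝒞 n)) := by
        apply Nat.mul_le_mul_left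
        apply Nat.mul_le_mul_left
        apply Nat.mul_le_mul_right
        exact Nat.mul_le_mul_left _ h4
      _ = n ^ h * (h.factorial * 2 * C0 ^ h * (h + 1) ^ h * num 𝒞 n) := by ring
  exact Nat.le_of_mul_le_mul_left h5 (Nat.pow_pos (by omega))

end Pool.Agent.D0H36.BL
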