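import Pool.Agent.D0H36.BL.SiteP

/-!
# Few graphs without sites
-/

set_option autoImplicit false

namespace Pool.Agent.D0H36.BL

open Finset

section

variable {h n : ℕ}

theorem compl_card {W : Finset (Fin (n + h))} (hW : W.card = h) : Wᶜ.card = n := by
  rw [Finset.card_compl, Fintype.card_fin, hW]
  omega

/-- increasing enumeration of the set -/
def ee {W : Finset (Fin (n + h))} (hW : W.card = h) : Fin h ↪o Fin (n + h) := W.orderEmbOfFin hW

/-- increasing enumeration of the complement -/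
def gg {W : Finset (Fin (n + h))} (hW : W.card = h) : Fin n ↪o Fin (n + h) :=
  Wᶜ.orderEmbOfFin (compl_card hW)

variable {W : Finset (Fin (n + h))} (hW : W.card = h)

theorem ee_mem (i : Fin h) : ee hW i ∈ W := Finset.orderEmbOfFin_mem _ _ _

theorem gg_mem (i : Fin n) : gg hW i ∉ W := Finset.mem_compl.1 (Finset.orderEmbOfFin_mem _ _ _)

theorem ee_ne (i : Fin h) (j : Fin n) : ee hW i ≠ gg hW j := by
  intro h1
  exact gg_mem hW j (h1 ▸ ee_mem hW i)

theorem exists_ee {z : Fin (n + h)} (hz : z ∈ W) : ∃ i, ee hW i = z := exists_en hW hz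

theorem exists_gg {z : Fin (n + h)} (hz : z ∉ W) : ∃ i, gg hW i = z :=
  exists_en (compl_card hW) (Finset.mem_compl.2 hz)

/-- the graph which is `A` on `W` and `G` on the complement, with one more edge -/
def insG (G : SimpleGraph (Fin n)) (A : SimpleGraph (Fin h)) (o : Fin h) (x : Fin n) :
    SimpleGraph (Fin (n + h)) where
  Adj u v := (∃ i j, ee hW i = u ∧ ee hW j = v ∧ A.Adj i j) ∨
    (∃ i j, gg hW i = u ∧ gg hW j = v ∧ G.Adj i j) ∨
    (u = ee hW o ∧ v = gg hW x) ∨ (v = ee hW o ∧ u = gg hW x)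
  symm := ⟨by
    rintro u v (⟨i, j, h1, h2, h3⟩ | ⟨i, j, h1, h2, h3⟩ | h1 | h1)
    · exact Or.inl ⟨j, i, h2, h1, h3.symm⟩
    · exact Or.inr (Or.inl ⟨j, i, h2, h1, h3.symm⟩)
    · exact Or.inr (Or.inr (Or.inr h1))
    · exact Or.inr (Or.inr (Or.inl h1))⟩
  loopless := ⟨by
    rintro u (⟨i, j, h1, h2, h3⟩ | ⟨i, j, h1, h2, h3⟩ | ⟨h1, h2⟩ | ⟨h1, h2⟩)
    · exact h3.ne ((ee hW).injective (h1.trans h2.symm))
    · exact h3.ne ((gg hW).injective (h1.trans h2.symm))
    · exact ee_ne hW _ _ (h1.symm.trans h2)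
    · exact ee_ne hW _ _ (h1.symm.trans h2)⟩

variable (G : SimpleGraph (Fin n)) (A : SimpleGraph (Fin h)) (o : Fin h) (x : Fin n)

theorem insG_ee (i j : Fin h) : (insG hW G A o x).Adj (ee hW i) (ee hW j) ↔ A.Adj i j := by
  constructor
  · rintro (⟨i', j', h1, h2, h3⟩ | ⟨i', j', h1, h2, h3⟩ | ⟨h1, h2⟩ | ⟨h1, h2⟩)
    · rw [(ee hW).injective h1, (ee hW).injective h2] at h3
      exact h3
    · exact absurd h1.symm (ee_ne hW _ _)
    · exact absurd h2 (ee_ne hW _ _)
    · exact absurd h2 (ee_ne hW _ _)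
  · intro h
    exact Or.inl ⟨i, j, rfl, rfl, h⟩

theorem insG_gg (i j : Fin n) : (insG hW G A o x).Adj (gg hW i) (gg hW j) ↔ G.Adj i j := by
  constructor
  · rintro (⟨i', j', h1, h2, h3⟩ | ⟨i', j', h1, h2, h3⟩ | ⟨h1, h2⟩ | ⟨h1, h2⟩)
    · exact absurd h1 (ee_ne hW _ _)
    · rw [(gg hW).injective h1, (gg hW).injective h2] at h3
      exact h3
    · exact absurd h1.symm (ee_ne hW _ _)
    · exact absurd h1.symm (ee_ne hW _ _)
  · intro h
    exact Or.inr (Or.inl ⟨i, j, rfl, rfl, h⟩)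

theorem insG_eg (i : Fin h) (j : Fin n) :
    (insG hW G A o x).Adj (ee hW i) (gg hW j) ↔ i = o ∧ j = x := by
  constructor
  · rintro (⟨i', j', h1, h2, h3⟩ | ⟨i', j', h1, h2, h3⟩ | ⟨h1, h2⟩ | ⟨h1, h2⟩)
    · exact absurd h2 (ee_ne hW _ _)
    · exact absurd h1.symm (ee_ne hW _ _)
    · exact ⟨(ee hW).injective h1, (gg hW).injective h2⟩
    · exact absurd h1.symm (ee_ne hW _ _)
  · rintro ⟨rfl, rfl⟩
    exact Or.inr (Or.inr (Or.inl ⟨rfl, rfl⟩))

theorem insG_cross {a b : Fin (n + h)} (ha : a ∈ W) (hb : b ∉ W) :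
    (insG hW G A o x).Adj a b ↔ a = ee hW o ∧ b = gg hW x := by
  obtain ⟨i, rfl⟩ := exists_ee hW ha
  obtain ⟨j, rfl⟩ := exists_gg hW hb
  rw [insG_eg]
  exact ⟨fun h => ⟨by rw [h.1], by rw [h.2]⟩,
    fun h => ⟨(ee hW).injective h.1, (gg hW).injective h.2⟩⟩

theorem insG_look : (insG hW G A o x).comap (W.orderEmbOfFin hW) = A := by
  ext i j
  exact insG_ee hW G A o x i j

theorem insG_off : (insG hW G A o x).comap (gg hW) = G := by
  ext i j
  exact insG_gg hW G A o x i j

theorem cls_insG {𝒞 : ∀ V : Type, SimpleGraph V → Prop} {d : ℕ} (hC : Cls 𝒞 d)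
    (hA : 𝒞 _ A) (hG : 𝒞 _ G) : 𝒞 _ (insG hW G A o x) := by
  refine hC.join _ _ (W : Set (Fin (n + h))) (ee hW o) (gg hW x) (ee_mem hW o) (gg_mem hW x) ?_ ?_ ?_
  · intro a b ha hb hab
    exact (insG_cross hW G A o x ha hb).1 hab
  · have h1 := hC.ext _ _ (ee hW).toEmbedding A hA
    have h2 := ins_map (ee hW).toEmbedding (insG hW G A o x)
    rw [show Set.range (ee hW).toEmbedding = (W : Set (Fin (n + h))) from
        Finset.range_orderEmbOfFin _ _,
      show (insG hW G A o x).comap (ee hW).toEmbedding = A from insG_look _ _ _ _ _] at h2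
    rw [h2]
    exact h1
  · have h1 := hC.ext _ _ (gg hW).toEmbedding G hG
    have h2 := ins_map (gg hW).toEmbedding (insG hW G A o x)
    have h3 : Set.range (gg hW).toEmbedding = ((W : Set (Fin (n + h))))ᶜ := by
      rw [← Finset.coe_compl]
      exact Finset.range_orderEmbOfFin _ _
    rw [h3, show (insG hW G A o x).comap (gg hW).toEmbedding = G from insG_off _ _ _ _ _] at h2
    rw [h2]
    exact h1

theorem site_insG {T : Set (SimpleGraph (Fin h))} (hA : A ∈ T) : Site T (insG hW G A o x) W where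
  card := hW
  look := by
    rw [insG_look]
    exact hA
  one := ⟨ee hW o, gg hW x, ee_mem hW o, gg_mem hW x, fun _ _ ha hb => insG_cross hW G A o x ha hb⟩

/-- the other sites contain the end of the new edge -/
theorem other_site {T : Set (SimpleGraph (Fin h))} (hT : ∀ A ∈ T, TwoEdge A) (hA : A ∈ T)
    (hfree : ∀ W, ¬ Site T G W) {W' : Finset (Fin (n + h))} (hs : Site T (insG hW G A o x) W')
    (hne : W' ≠ W) : gg hW x ∈ W' := by
  classical
  by_contra hx
  have hd : Disjoint W W' := (site_insG hW G A o x hA).disjoint hT hs hne.symm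
  have hnW : ∀ z ∈ W', z ∉ W := fun z hz hzW => Finset.disjoint_left.1 hd hzW hz
  let U : Finset (Fin n) := univ.filter (fun i => gg hW i ∈ W')
  have hU : ∀ i, i ∈ U ↔ gg hW i ∈ W' := fun i => by simp [U]
  have hmap : U.map (gg hW).toEmbedding = W' := by
    ext z
    rw [Finset.mem_map]
    constructor
    · rintro ⟨i, hi, rfl⟩
      exact (hU i).1 hi
    · intro hz
      obtain ⟨i, hi⟩ := exists_gg hW (hnW z hz)
      refine ⟨i, (hU i).2 ?_, hi⟩
      rw [hi]
      exact hz
  have hcard : U.card = h := by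
    rw [← Finset.card_map (gg hW).toEmbedding, hmap]
    exact hs.card
  have hen : ∀ i, gg hW (U.orderEmbOfFin hcard i) = W'.orderEmbOfFin hs.card i := by
    intro i
    have := Finset.orderEmbOfFin_unique' hs.card
      (f := (U.orderEmbOfFin hcard).trans (gg hW))
      (fun j => (hU _).1 (Finset.orderEmbOfFin_mem _ _ _))
    have h2 := congrArg (fun f : Fin h ↪o Fin (n + h) => f i) this
    exact h2
  apply hfree U
  refine ⟨hcard, ?_, ?_⟩
  · have e1 : G.comap (U.orderEmbOfFin hcard) =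
        (insG hW G A o x).comap (W'.orderEmbOfFin hs.card) := by
      ext i j
      rw [SimpleGraph.comap_adj, SimpleGraph.comap_adj, ← hen, ← hen, insG_gg]
    rw [e1]
    exact hs.look
  · obtain ⟨r, y, hr, hy, hry⟩ := hs.one
    have hyW : y ∉ W := by
      intro hyW
      have h1 : (insG hW G A o x).Adj y r := ((hry r y hr hy).2 ⟨rfl, rfl⟩).symm
      have h2 := (insG_cross hW G A o x hyW (hnW r hr)).1 h1
      rw [h2.2] at hr
      exact hx hr
    obtain ⟨r', rfl⟩ := exists_gg hW (hnW r hr)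
    obtain ⟨y', rfl⟩ := exists_gg hW hyW
    refine ⟨r', y', (hU _).2 hr, fun h => hy ((hU _).1 h), fun a b ha hb => ?_⟩
    rw [← insG_gg hW G A o x, hry _ _ ((hU _).1 ha) (fun h => hb ((hU _).2 h))]
    exact ⟨fun h => ⟨(gg hW).injective h.1, (gg hW).injective h.2⟩,
      fun h => ⟨by rw [h.1], by rw [h.2]⟩⟩

/-- at most two sites -/
theorem sites_le {T : Set (SimpleGraph (Fin h))} (hT : ∀ A ∈ T, TwoEdge A) (hA : A ∈ T)
    (hfree : ∀ W, ¬ Site T G W) (S : Finset (Finset (Fin (n + h))))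
    (hS : ∀ W' ∈ S, Site T (insG hW G A o x) W') : S.card ≤ 2 := by
  classical
  have h1 : (S.erase W).card ≤ 1 := by
    rw [Finset.card_le_one]
    intro a ha b hb
    by_contra hab
    have ha' := Finset.mem_erase.1 ha
    have hb' := Finset.mem_erase.1 hb
    have h2 := other_site hW G A o x hT hA hfree (hS a ha'.2) ha'.1
    have h3 := other_site hW G A o x hT hA hfree (hS b hb'.2) hb'.1
    exact Finset.disjoint_left.1 ((hS a ha'.2).disjoint hT (hS b hb'.2) hab) h2 h3
  have h2 := Finset.pred_card_le_card_erase (s := S) (a := W)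
  omega

/-- `G` and `x` are determined by the new graph and `W` -/
theorem insG_inj {G G' : SimpleGraph (Fin n)} {x x' : Fin n}
    (h1 : insG hW G A o x = insG hW G' A o x') : G = G' ∧ x = x' := by
  constructor
  · rw [← insG_off hW G A o x, h1, insG_off]
  · have h2 : (insG hW G A o x).Adj (ee hW o) (gg hW x) := (insG_eg hW G A o x o x).2 ⟨rfl, rfl⟩
    rw [h1] at h2
    exact ((insG_eg hW G' A o x' o x).1 h2).2

end

end Pool.Agent.D0H36.BL
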