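import Pool.Agent.D0H36.BL.Stm

/-!
# The fifty percent law, second part: linearly many sites, roots of linear multiplicity

(MA) As in (FR), but with any number of sites: inserting one site changes the number of the sites to at most
two more.  With `N_j n` the number of the graphs with at most `j` sites,
`N_j n * choose (n + h) h * n ≤ (j + 2) N_(j+2) (n + h)`; after `k` steps, with (RA),
`N_j n ≤ (C' (j + 2 k) / n) ^ k N n`.

(MU) `S_MULT`: induction on `s`; remove the last set `U`: `chr G = chr G[U] * chr G[Uᶜ]`, or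
`X * chr G = (X - 1) * (chr G[U] * chr G[Uᶜ])`, by (PR), and the other sets have at most one leaving edge
in `G[Uᶜ]`.  `(X - C q) ^ (s+1)` is prime to `X`, since `q ≠ 0`.
-/

set_option autoImplicit false

namespace Pool.Agent.D0H36.BL

open Polynomial Pool.Agent.H207R2.BL

/-- (MU) disjoint sets of vertices with at most one leaving edge each, on which `P` vanishes at `q` -/
def S_MULT : Prop := ∀ (V : Type) [Finite V] (G : SimpleGraph V) (q : ℝ), 1 < q →
  ∀ (s : ℕ) (W : Fin s → Set V), (∀ i j, i ≠ j → Disjoint (W i) (W j)) →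
  (∀ i a b c d, a ∈ W i → b ∉ W i → c ∈ W i → d ∉ W i → G.Adj a b → G.Adj c d → a = c ∧ b = d) →
  (∀ i, (chr (G.induce (W i))).eval q = 0) → (X - C q) ^ s ∣ chr G

/-- (MA) all but an exponentially small share of the members of `𝒞` have linearly many sites -/
def S_MANY : Prop := ∀ (𝒞 : ∀ V : Type, SimpleGraph V → Prop) (d : ℕ), Cls 𝒞 d → ∀ (h : ℕ), 0 < h →
  ∀ T : Set (SimpleGraph (Fin h)), T.Nonempty → (∀ A ∈ T, 𝒞 (Fin h) A ∧ TwoEdge A) →
  ∃ c : ℝ, 0 < c ∧ ∃ n₀ : ℕ, ∀ n : ℕ, n₀ ≤ n →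
    (cnt 𝒞 n (fun G => ({W | Site T G W}.ncard : ℝ) < c * n) : ℝ) ≤ Real.exp (-(c * n)) * num 𝒞 n

end Pool.Agent.D0H36.BL
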