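import Pool.Agent.D0H36.BL.Fr2P
import Pool.Agent.D0H36.BL.Stm2

/-!
# All but an exponentially small share of the graphs have linearly many sites
-/

set_option autoImplicit false

namespace Pool.Agent.D0H36.BL

open Finset

section

variable {h n : ℕ} {W : Finset (Fin (n + h))} (hW : W.card = h)
  (G : SimpleGraph (Fin n)) (A : SimpleGraph (Fin h)) (o : Fin h) (x : Fin n)

open Classical in
/-- the preimage of a set of vertices -/
noncomputable def pullS (W' : Finset (Fin (n + h))) : Finset (Fin n) :=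
  univ.filter (fun i => gg hW i ∈ W')

theorem mem_pullS {W' : Finset (Fin (n + h))} {i : Fin n} : i ∈ pullS hW W' ↔ gg hW i ∈ W' := by
  classical
  simp [pullS]

theorem map_pullS {W' : Finset (Fin (n + h))} (hd : Disjoint W W') :
    (pullS hW W').map (gg hW).toEmbedding = W' := by
  ext z
  rw [Finset.mem_map]
  constructor
  · rintro ⟨i, hi, rfl⟩
    exact (mem_pullS hW).1 hi
  · intro hz
    obtain ⟨i, hi⟩ := exists_gg hW (fun hzW => Finset.disjoint_left.1 hd hzW hz)
    refine ⟨i, (mem_pullS hW).2 ?_, hi⟩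
    rw [hi]
    exact hz

/-- a site which does not contain the end of the new edge comes from a site of `G` -/
theorem pull_site {T : Set (SimpleGraph (Fin h))} {W' : Finset (Fin (n + h))}
    (hs : Site T (insG hW G A o x) W') (hd : Disjoint W W') (hx : gg hW x ∉ W') :
    Site T G (pullS hW W') := by
  classical
  have hnW : ∀ z ∈ W', z ∉ W := fun z hz hzW => Finset.disjoint_left.1 hd hzW hz
  have hU : ∀ i, i ∈ pullS hW W' ↔ gg hW i ∈ W' := fun i => mem_pullS hW
  have hcard : (pullS hW W').card = h := by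
    rw [← Finset.card_map (gg hW).toEmbedding, map_pullS hW hd]
    exact hs.card
  have hen : ∀ i, gg hW ((pullS hW W').orderEmbOfFin hcard i) = W'.orderEmbOfFin hs.card i := by
    intro i
    have := Finset.orderEmbOfFin_unique' hs.card
      (f := ((pullS hW W').orderEmbOfFin hcard).trans (gg hW))
      (fun j => (hU _).1 (Finset.orderEmbOfFin_mem _ _ _))
    exact congrArg (fun f : Fin h ↪o Fin (n + h) => f i) this
  refine ⟨hcard, ?_, ?_⟩
  · have e1 : G.comap ((pullS hW W').orderEmbOfFin hcard) =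
        (insG hW G A o x).comap (W'.orderEmbOfFin hs.card) := by
      ext i j
      rw [SimpleGraph.comap_adj, SimpleGraph.comap_adj, ← hen, ← hen, insG_gg]
    rw [e1]
    exact hs.look
  · obtain ⟨r, y, hr, hy, hry⟩ := hs.one
    have hyW : y ∉ W := by
      intro hyW
      have h1 : (insG hW G A o x).Adj y r := ((hry r y hr hy).2 ⟨rfl, rfl⟩).symm
      have h2 := (insG_cross hW G A o x hyW (hnW r hr)).1 h1
      rw [h2.2] at hr
      exact hx hr
    obtain ⟨r', rfl⟩ := exists_gg hW (hnW r hr)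
    obtain ⟨y', rfl⟩ := exists_gg hW hyW
    refine ⟨r', y', (hU _).2 hr, fun h => hy ((hU _).1 h), fun a b ha hb => ?_⟩
    rw [← insG_gg hW G A o x, hry _ _ ((hU _).1 ha) (fun h => hb ((hU _).2 h))]
    exact ⟨fun h => ⟨(gg hW).injective h.1, (gg hW).injective h.2⟩,
      fun h => ⟨by rw [h.1], by rw [h.2]⟩⟩

/-- at most two more sites -/
theorem nsites_insG {T : Set (SimpleGraph (Fin h))} (hT : ∀ A ∈ T, TwoEdge A) (hA : A ∈ T) :
    {W' | Site T (insG hW G A o x) W'}.ncard ≤ {U | Site T G U}.ncard + 2 := by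
  classical
  let S' : Set (Finset (Fin (n + h))) := {W' | Site T (insG hW G A o x) W'}
  let S1 : Set (Finset (Fin (n + h))) := {W' | W' ∈ S' ∧ W' ≠ W ∧ gg hW x ∈ W'}
  let S2 : Set (Finset (Fin (n + h))) := {W' | W' ∈ S' ∧ W' ≠ W ∧ gg hW x ∉ W'}
  have hWS : Site T (insG hW G A o x) W := site_insG hW G A o x hA
  have hsub : S' ⊆ {W} ∪ (S1 ∪ S2) := by
    intro W' hW'
    by_cases h1 : W' = W
    · exact Or.inl h1
    · by_cases h2 : gg hW x ∈ W'
      · exact Or.inr (Or.inl ⟨hW', h1, h2⟩)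
      · exact Or.inr (Or.inr ⟨hW', h1, h2⟩)
  have hS1 : S1.ncard ≤ 1 := by
    rw [Set.ncard_le_one (Set.toFinite _)]
    intro a ha b hb
    by_contra hab
    exact Finset.disjoint_left.1 ((ha.1 : Site _ _ _).disjoint hT hb.1 hab) ha.2.2 hb.2.2
  have hS2 : S2.ncard ≤ {U | Site T G U}.ncard := by
    apply Set.ncard_le_ncard_of_injOn (pullS hW) _ _ (Set.toFinite _)
    · intro W' hW'
      exact pull_site hW G A o x hW'.1 (hWS.disjoint hT hW'.1 hW'.2.1.symm) hW'.2.2
    · intro a ha b hb hab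
      have h1 := map_pullS hW (hWS.disjoint hT ha.1 ha.2.1.symm)
      have h2 := map_pullS hW (hWS.disjoint hT hb.1 hb.2.1.symm)
      rw [← h1, ← h2, hab]
  calc S'.ncard ≤ ({W} ∪ (S1 ∪ S2)).ncard := Set.ncard_le_ncard hsub (Set.toFinite _)
    _ ≤ ({W} : Set _).ncard + (S1 ∪ S2).ncard := Set.ncard_union_le _ _
    _ ≤ 1 + (S1.ncard + S2.ncard) := by
      rw [Set.ncard_singleton]
      exact Nat.add_le_add_left (Set.ncard_union_le _ _) _
    _ ≤ {U | Site T G U}.ncard + 2 := by omega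

end

theorem num_asc {𝒞 : ∀ V : Type, SimpleGraph V → Prop} {C0 : ℕ}
    (hC0 : ∀ n : ℕ, 4 ≤ n → num 𝒞 (n + 1) ≤ C0 * n * num 𝒞 n) (n : ℕ) (hn : 4 ≤ n) (k : ℕ) :
    num 𝒞 (n + k) ≤ C0 ^ k * n.ascFactorial k * num 𝒞 n := by
  induction k with
  | zero => simp
  | succ k ih =>
    have h1 := hC0 (n + k) (by omega)
    calc num 𝒞 (n + (k + 1)) ≤ C0 * (n + k) * num 𝒞 (n + k) := h1
      _ ≤ C0 * (n + k) * (C0 ^ k * n.ascFactorial k * num 𝒞 n) := Nat.mul_le_mul_left _ ih
      _ = C0 ^ (k + 1) * n.ascFactorial (k + 1) * num 𝒞 n := by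
        rw [Nat.ascFactorial_succ]
        ring

theorem asc_mono (n k : ℕ) : n.ascFactorial k ≤ (n + 1).ascFactorial k := by
  induction k with
  | zero => simp
  | succ k ih =>
    rw [Nat.ascFactorial_succ, Nat.ascFactorial_succ]
    exact Nat.mul_le_mul (by omega) ih

section

variable {𝒞 : ∀ V : Type, SimpleGraph V → Prop} {d : ℕ} (hC : Cls 𝒞 d) {h : ℕ}
    (hh : 0 < h) {T : Set (SimpleGraph (Fin h))} (hT : ∀ A ∈ T, 𝒞 (Fin h) A ∧ TwoEdge A)
    {A : SimpleGraph (Fin h)} (hA : A ∈ T)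

include hC hh hT hA in
theorem many_step (j n : ℕ) :
    cnt 𝒞 n (fun G => {W | Site T G W}.ncard ≤ j) * ((n + h).choose h * n) ≤
      (j + 2) * cnt 𝒞 (n + h) (fun G => {W | Site T G W}.ncard ≤ j + 2) := by
  classical
  have hT2 : ∀ A ∈ T, TwoEdge A := fun A hA => (hT A hA).2
  set F : Finset (SimpleGraph (Fin n)) :=
    univ.filter (fun G => 𝒞 (Fin n) G ∧ {W | Site T G W}.ncard ≤ j) with hF
  have e1 : cnt 𝒞 n (fun G => {W | Site T G W}.ncard ≤ j) = F.card := cnt_eq _ _ _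
  set t : Finset (SimpleGraph (Fin (n + h))) :=
    univ.filter (fun G => 𝒞 (Fin (n + h)) G ∧ {W | Site T G W}.ncard ≤ j + 2) with ht
  have e2 : cnt 𝒞 (n + h) (fun G => {W | Site T G W}.ncard ≤ j + 2) = t.card := cnt_eq _ _ _
  let S : Finset (SimpleGraph (Fin n) × Finset (Fin (n + h)) × Fin n) :=
    F ×ˢ (powersetCard h (univ : Finset (Fin (n + h)))) ×ˢ (univ : Finset (Fin n))
  have hS : S.card = F.card * ((n + h).choose h * n) := by
    simp only [S, card_product, card_powersetCard, card_univ, Fintype.card_fin]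
  let f : SimpleGraph (Fin n) × Finset (Fin (n + h)) × Fin n → SimpleGraph (Fin (n + h)) :=
    fun p => if hW : p.2.1.card = h then insG hW p.1 A ⟨0, hh⟩ p.2.2 else ⊥
  have hmS : ∀ p, p ∈ S → ∃ hW : p.2.1.card = h,
      (𝒞 (Fin n) p.1 ∧ {W | Site T p.1 W}.ncard ≤ j) ∧
      f p = insG hW p.1 A ⟨0, hh⟩ p.2.2 := by
    intro p hp
    have h1 := Finset.mem_product.1 hp
    have h2 := Finset.mem_product.1 h1.2
    have hW : p.2.1.card = h := (Finset.mem_powersetCard.1 h2.1).2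
    refine ⟨hW, (Finset.mem_filter.1 h1.1).2, ?_⟩
    simp only [f, dif_pos hW]
  rw [e1, e2, ← hS]
  refine Finset.card_le_mul_card_image_of_maps_to (f := f) ?_ (j + 2) ?_
  · intro p hp
    obtain ⟨hW, ⟨h1, h2⟩, h3⟩ := hmS p hp
    rw [h3]
    refine Finset.mem_filter.2 ⟨Finset.mem_univ _, cls_insG hW _ _ _ _ hC (hT A hA).1 h1, ?_⟩
    exact (nsites_insG hW _ _ _ _ hT2 hA).trans (by omega)
  · intro b hb
    have hbn := (Finset.mem_filter.1 hb).2.2
    refine le_trans ?_ hbn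
    rw [← Set.ncard_coe_finset]
    apply Set.ncard_le_ncard_of_injOn
      (fun p : SimpleGraph (Fin n) × Finset (Fin (n + h)) × Fin n => p.2.1) _ _ (Set.toFinite _)
    · intro p hp
      obtain ⟨hpS, hpb⟩ := Finset.mem_filter.1 (Finset.mem_coe.1 hp)
      obtain ⟨hW, _, hf⟩ := hmS p hpS
      show Site T b p.2.1
      rw [← hpb, hf]
      exact site_insG hW _ _ _ _ hA
    · intro p hp p' hp' hpp
      obtain ⟨hpS, hpb⟩ := Finset.mem_filter.1 (Finset.mem_coe.1 hp)
      obtain ⟨hpS', hpb'⟩ := Finset.mem_filter.1 (Finset.mem_coe.1 hp')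
      obtain ⟨hW, _, hf⟩ := hmS p hpS
      obtain ⟨hW', _, hf'⟩ := hmS p' hpS'
      obtain ⟨G, W, x⟩ := p
      obtain ⟨G', W', x'⟩ := p'
      simp only at hpp hW hW' hf hf'
      subst hpp
      have h1 : insG hW G A ⟨0, hh⟩ x = insG hW G' A ⟨0, hh⟩ x' := by
        rw [← hf, ← hf', hpb, hpb']
      obtain ⟨h2, h3⟩ := insG_inj hW A _ h1
      rw [h2, h3]

include hC hh hT hA in
theorem many_pow {C0 : ℕ} (hC0 : ∀ n : ℕ, 4 ≤ n → num 𝒞 (n + 1) ≤ C0 * n * num 𝒞 n) (k : ℕ) :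
    ∀ (j n : ℕ), 4 ≤ n → cnt 𝒞 n (fun G => {W | Site T G W}.ncard ≤ j) * n ^ k ≤
      ((j + 2 * k) * (C0 ^ h * h.factorial)) ^ k * num 𝒞 n := by
  induction k with
  | zero =>
    intro j n _
    simp only [pow_zero, mul_one, one_mul]
    unfold num
    classical
    rw [cnt_eq, cnt_eq]
    apply Finset.card_le_card
    intro G hG
    obtain ⟨h1, h2, h3⟩ := Finset.mem_filter.1 hG
    exact Finset.mem_filter.2 ⟨h1, h2, trivial⟩
  | succ k ih =>
    intro j n hn
    set F := cnt 𝒞 n (fun G => {W | Site T G W}.ncard ≤ j) with hF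
    set F' := cnt 𝒞 (n + h) (fun G => {W | Site T G W}.ncard ≤ j + 2) with hF'
    have h1 : F * ((n + h).choose h * n) ≤ (j + 2) * F' := many_step hC hh hT hA j n
    have h2 : F' * (n + h) ^ k ≤ ((j + 2 + 2 * k) * (C0 ^ h * h.factorial)) ^ k * num 𝒞 (n + h) :=
      ih (j + 2) (n + h) (by omega)
    rcases Nat.eq_zero_or_pos F with h0 | hpos
    · rw [h0, zero_mul]
      exact Nat.zero_le _
    · have hch : 0 < (n + h).choose h := Nat.choose_pos (by omega)
      have h3 : 0 < (j + 2) * F' :=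
        lt_of_lt_of_le (Nat.mul_pos hpos (Nat.mul_pos hch (by omega))) h1
      have hF'pos : 0 < F' := Nat.pos_of_mul_pos_left h3 |> fun _ => by
        rcases Nat.eq_zero_or_pos F' with h4 | h4
        · rw [h4, mul_zero] at h3
          exact absurd h3 (lt_irrefl _)
        · exact h4
      have hNpos : 0 < num 𝒞 (n + h) := by
        have h4 : 0 < F' * (n + h) ^ k := Nat.mul_pos hF'pos (Nat.pow_pos (by omega))
        have h5 := lt_of_lt_of_le h4 h2
        rcases Nat.eq_zero_or_pos (num 𝒞 (n + h)) with h6 | h6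
        · rw [h6, mul_zero] at h5
          exact absurd h5 (lt_irrefl _)
        · exact h6
      have h4 : num 𝒞 (n + h) ≤ C0 ^ h * h.factorial * (n + h).choose h * num 𝒞 n := by
        refine (num_asc hC0 n hn h).trans ?_
        apply Nat.mul_le_mul_right
        rw [mul_assoc]
        apply Nat.mul_le_mul_left
        exact (asc_mono n h).trans (Nat.ascFactorial_eq_factorial_mul_choose n h).le
      set D := C0 ^ h * h.factorial with hD
      have h5 : F * n * num 𝒞 (n + h) ≤ (j + 2) * D * F' * num 𝒞 n := by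
        calc F * n * num 𝒞 (n + h) ≤ F * n * (D * (n + h).choose h * num 𝒞 n) :=
              Nat.mul_le_mul_left _ h4
          _ = (F * ((n + h).choose h * n)) * (D * num 𝒞 n) := by ring
          _ ≤ ((j + 2) * F') * (D * num 𝒞 n) := Nat.mul_le_mul_right _ h1
          _ = (j + 2) * D * F' * num 𝒞 n := by ring
      have h6 : num 𝒞 (n + h) * (F * n ^ (k + 1)) ≤
          num 𝒞 (n + h) * (((j + 2 * (k + 1)) * D) ^ (k + 1) * num 𝒞 n) := by
        calc num 𝒞 (n + h) * (F * n ^ (k + 1)) = (F * n * num 𝒞 (n + h)) * n ^ k := by ring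
          _ ≤ ((j + 2) * D * F' * num 𝒞 n) * n ^ k := Nat.mul_le_mul_right _ h5
          _ ≤ ((j + 2) * D * F' * num 𝒞 n) * (n + h) ^ k :=
            Nat.mul_le_mul_left _ (Nat.pow_le_pow_left (by omega) _)
          _ = ((j + 2) * D * num 𝒞 n) * (F' * (n + h) ^ k) := by ring
          _ ≤ ((j + 2) * D * num 𝒞 n) * (((j + 2 + 2 * k) * D) ^ k * num 𝒞 (n + h)) :=
            Nat.mul_le_mul_left _ h2
          _ = num 𝒞 (n + h) * (((j + 2) * D) * ((j + 2 + 2 * k) * D) ^ k * num 𝒞 n) := by ring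
          _ ≤ num 𝒞 (n + h) * (((j + 2 * (k + 1)) * D) ^ (k + 1) * num 𝒞 n) := by
            apply Nat.mul_le_mul_left
            apply Nat.mul_le_mul_right
            rw [pow_succ' ((j + 2 * (k + 1)) * D) k]
            apply Nat.mul_le_mul
            · exact Nat.mul_le_mul_right _ (by omega)
            · apply Nat.pow_le_pow_left
              exact Nat.mul_le_mul_right _ (by omega)
      exact Nat.le_of_mul_le_mul_left h6 hNpos

end

theorem many (hR : S_RATIO) : S_MANY := by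
  intro 𝒞 d hC h hh T hTne hT
  obtain ⟨C0, hC0⟩ := hR 𝒞 d hC
  obtain ⟨A, hA⟩ := hTne
  set D : ℕ := C0 ^ h * h.factorial + 1 with hD
  have hDpos : (0 : ℝ) < D := by positivity
  refine ⟨1 / (18 * D), by positivity, max 4 (18 * D), fun n hn => ?_⟩
  have hn4 : 4 ≤ n := (le_max_left _ _).trans hn
  have hnD : 18 * D ≤ n := (le_max_right _ _).trans hn
  have hn0 : (0 : ℝ) < n := by
    have : 0 < n := by omega
    exact_mod_cast this
  have hnDR : (18 : ℝ) * D ≤ n := by exact_mod_cast hnD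
  set k := n / (9 * D) with hk
  have hk1 : k * (9 * D) ≤ n := Nat.div_mul_le_self _ _
  have hk2 : n < (k + 1) * (9 * D) := by
    rw [hk]
    have h9 : 0 < 9 * D := by omega
    have := Nat.lt_div_mul_add (a := n) h9
    calc n < n / (9 * D) * (9 * D) + 9 * D := this
      _ = (n / (9 * D) + 1) * (9 * D) := by ring
  have hk1R : (k : ℝ) * (9 * D) ≤ n := by exact_mod_cast hk1
  have hk2R : (n : ℝ) < (k + 1) * (9 * D) := by exact_mod_cast hk2
  have hkn : 1 / (18 * (D : ℝ)) * n ≤ k := by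
    rw [div_mul_eq_mul_div, one_mul, div_le_iff₀ (by positivity)]
    nlinarith
  have h1 := many_pow hC hh hT hA hC0 k k n hn4
  have h2 : cnt 𝒞 n (fun G => ({W | Site T G W}.ncard : ℝ) < 1 / (18 * D) * n) ≤
      cnt 𝒞 n (fun G => {W | Site T G W}.ncard ≤ k) := by
    classical
    rw [cnt_eq, cnt_eq]
    apply Finset.card_le_card
    intro G hG
    obtain ⟨h1, h2, h3⟩ := Finset.mem_filter.1 hG
    refine Finset.mem_filter.2 ⟨h1, h2, ?_⟩
    have : ({W | Site T G W}.ncard : ℝ) < k := lt_of_lt_of_le h3 hkn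
    have h4 : {W | Site T G W}.ncard < k := by exact_mod_cast this
    exact h4.le
  have h3 : (cnt 𝒞 n (fun G => {W | Site T G W}.ncard ≤ k) : ℝ) * (n : ℝ) ^ k ≤
      ((k + 2 * k) * (C0 ^ h * h.factorial : ℕ)) ^ k * num 𝒞 n := by exact_mod_cast h1
  have h4 : ((k : ℝ) + 2 * k) * ((C0 ^ h * h.factorial : ℕ) : ℝ) ≤ (n : ℝ) / 3 := by
    have h5 : ((C0 ^ h * h.factorial : ℕ) : ℝ) ≤ D := by
      rw [hD]
      push_cast
      linarith
    have hk0 : (0 : ℝ) ≤ k := by positivity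
    calc ((k : ℝ) + 2 * k) * ((C0 ^ h * h.factorial : ℕ) : ℝ) ≤ ((k : ℝ) + 2 * k) * D :=
          mul_le_mul_of_nonneg_left h5 (by positivity)
      _ ≤ (n : ℝ) / 3 := by nlinarith
  have h5 : (cnt 𝒞 n (fun G => {W | Site T G W}.ncard ≤ k) : ℝ) ≤ (1 / 3 : ℝ) ^ k * num 𝒞 n := by
    have h6 : (cnt 𝒞 n (fun G => {W | Site T G W}.ncard ≤ k) : ℝ) * (n : ℝ) ^ k ≤
        ((1 / 3 : ℝ) ^ k * num 𝒞 n) * (n : ℝ) ^ k := by
      refine h3.trans ?_
      calc (((k : ℝ) + 2 * k) * (C0 ^ h * h.factorial : ℕ)) ^ k * num 𝒞 n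
          ≤ ((n : ℝ) / 3) ^ k * num 𝒞 n := by
            apply mul_le_mul_of_nonneg_right _ (by positivity)
            exact pow_le_pow_left₀ (by positivity) h4 k
        _ = ((1 / 3 : ℝ) ^ k * num 𝒞 n) * (n : ℝ) ^ k := by
            rw [div_pow, div_pow, one_pow]
            ring
    exact le_of_mul_le_mul_right h6 (by positivity)
  have h6 : (1 / 3 : ℝ) ^ k ≤ Real.exp (-(1 / (18 * (D : ℝ)) * n)) := by
    have h7 : (1 / 3 : ℝ) ≤ Real.exp (-1) := by
      rw [Real.exp_neg, one_div]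
      apply inv_anti₀ (Real.exp_pos 1)
      have := Real.exp_one_lt_d9
      linarith
    calc (1 / 3 : ℝ) ^ k ≤ (Real.exp (-1)) ^ k := pow_le_pow_left₀ (by norm_num) h7 k
      _ = Real.exp (-(k : ℝ)) := by
        rw [← Real.exp_nat_mul]
        congr 1
        ring
      _ ≤ Real.exp (-(1 / (18 * (D : ℝ)) * n)) := by
        apply Real.exp_le_exp.2
        linarith
  calc (cnt 𝒞 n (fun G => ({W | Site T G W}.ncard : ℝ) < 1 / (18 * D) * n) : ℝ)
      ≤ (cnt 𝒞 n (fun G => {W | Site T G W}.ncard ≤ k) : ℝ) := by exact_mod_cast h2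
    _ ≤ (1 / 3 : ℝ) ^ k * num 𝒞 n := h5
    _ ≤ Real.exp (-(1 / (18 * (D : ℝ)) * n)) * num 𝒞 n :=
      mul_le_mul_of_nonneg_right h6 (by positivity)

end Pool.Agent.D0H36.BL
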