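import Pool.Agent.D0H36.BL.LawP
import Pool.Agent.D0H36.BL.ManyP

/-!
# The fifty percent law with exponential rates, roots of linear multiplicity
-/

set_option autoImplicit false

namespace Pool.Agent.D0H36.BL

open Finset Polynomial Pool.Agent.H207R2.BL Filter

theorem chr_ne_zero {V : Type} [Finite V] (G : SimpleGraph V) : chr G ≠ 0 := by
  intro h
  have h1 := chr_spec G (Nat.card V)
  rw [h, eval_zero] at h1
  have e : V ≃ Fin (Nat.card V) := Finite.equivFin V
  have h2 : Nat.card (G.Coloring (Fin (Nat.card V))) = 0 := by exact_mod_cast h1.symm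
  have h3 : Finite (G.Coloring (Fin (Nat.card V))) :=
    Finite.of_injective (fun c : G.Coloring (Fin (Nat.card V)) => (c : V → Fin (Nat.card V)))
      (fun a b hab => RelHom.ext (fun v => congrFun hab v))
  rw [Finite.card_eq_zero_iff] at h2
  exact h2.elim (SimpleGraph.Coloring.mk e (fun {a b} hab h4 => hab.ne (e.injective h4)))

/-- if `P(B,q) = 0` then the order of the root `q` is at least the number of the `B`-sites -/
theorem mult_sites (hM : S_MULT) {h n : ℕ} {B : SimpleGraph (Fin h)} (hB2 : TwoEdge B) {q : ℝ}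
    (hq : 1 < q) (hB : (chr B).eval q = 0) (G : SimpleGraph (Fin n)) :
    {W | Site {B} G W}.ncard ≤ (chr G).rootMultiplicity q := by
  classical
  have hT : ∀ A ∈ ({B} : Set (SimpleGraph (Fin h))), TwoEdge A := by
    rintro A rfl
    exact hB2
  set S : Set (Finset (Fin n)) := {W | Site {B} G W} with hS
  have hfin : Finite S := Set.toFinite _
  let e : S ≃ Fin S.ncard := Finite.equivFinOfCardEq rfl
  rw [le_rootMultiplicity_iff (chr_ne_zero G)]
  refine hM (Fin n) G q hq S.ncard (fun i => ((e.symm i).1 : Set (Fin n))) ?_ ?_ ?_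
  · intro i j hij
    rw [Finset.disjoint_coe]
    exact (e.symm i).2.disjoint hT (e.symm j).2 (fun h => hij (e.symm.injective (Subtype.ext h)))
  · intro i a b c d ha hb hc hd hab hcd
    obtain ⟨r, x, _, _, hrx⟩ := (e.symm i).2.one
    have h1 := (hrx a b ha hb).1 hab
    have h2 := (hrx c d hc hd).1 hcd
    exact ⟨h1.1.trans h2.1.symm, h1.2.trans h2.2.symm⟩
  · intro i
    rw [← chr_of_iso (lookIso G (e.symm i).2.card)]
    have h1 : G.comap ((e.symm i).1.orderEmbOfFin (e.symm i).2.card) = B := (e.symm i).2.look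
    rw [h1]
    exact hB

variable {𝒞 : ∀ V : Type, SimpleGraph V → Prop} {d : ℕ}

/-- the order of a root is linear for all but an exponentially small share -/
theorem root_law (hC : Cls 𝒞 d) (hA : S_MANY) (hU : S_MULT) (hM : S_MIN) (hpos : ∀ n, 0 < num 𝒞 n)
    {q : ℝ} (hq : 1 < q)
    (hex : ∃ (V : Type) (_ : Finite V) (G : SimpleGraph V), 𝒞 V G ∧ (chr G).eval q = 0) :
    ∃ c : ℝ, 0 < c ∧ ∃ n₀ : ℕ, ∀ n : ℕ, n₀ ≤ n →
      share 𝒞 n (fun G => ((chr G).rootMultiplicity q : ℝ) < c * n) ≤ Real.exp (-(c * n)) := by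
  obtain ⟨h, B, h2, hB, hB2, hBz⟩ := (hM 𝒞 d hC q hq).2 hex
  obtain ⟨c, hc, n₀, H⟩ := hA 𝒞 d hC h (by omega) {B} ⟨B, rfl⟩ (by
    rintro A rfl
    exact ⟨hB, hB2⟩)
  refine ⟨c, hc, n₀, fun n hn => ?_⟩
  have hN : (0 : ℝ) < num 𝒞 n := by exact_mod_cast hpos n
  unfold share
  rw [div_le_iff₀ hN]
  refine le_trans ?_ (H n hn)
  have h1 : cnt 𝒞 n (fun G => ((chr G).rootMultiplicity q : ℝ) < c * n) ≤
      cnt 𝒞 n (fun G => ({W | Site {B} G W}.ncard : ℝ) < c * n) := by
    apply cnt_mono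
    intro G _ hG
    refine lt_of_le_of_lt ?_ hG
    exact_mod_cast mult_sites hU hB2 hq hBz G
  exact_mod_cast h1

/-- the fifty percent law with exponential rate -/
theorem half_exp (hC : Cls 𝒞 d) (hA : S_MANY) (hP : S_PROD) (hM : S_MIN)
    (hbook : ∀ h, 3 ≤ h → 𝒞 (Fin h) (book h) ∧ TwoEdge (book h) ∧
      ∀ q : ℝ, 2 < q → 0 < (chr (book h)).eval q) (hpos : ∀ n, 0 < num 𝒞 n) {q : ℝ} (hq : 2 < q)
    (hex : ∃ (V : Type) (_ : Finite V) (G : SimpleGraph V), 𝒞 V G ∧ (chr G).eval q < 0)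
    (hnz : ∀ (V : Type) [Finite V] (G : SimpleGraph V), 𝒞 V G → (chr G).eval q ≠ 0) :
    ∃ c : ℝ, 0 < c ∧ ∃ n₀ : ℕ, ∀ n : ℕ, n₀ ≤ n →
      |share 𝒞 n (fun G => 0 < (chr G).eval q) - 1 / 2| ≤ Real.exp (-(c * n)) := by
  obtain ⟨h, B, h2, hB, hB2, hBz⟩ := (hM 𝒞 d hC q (by linarith)).1 hex
  have h3 : 3 ≤ h := by
    by_contra hcon
    have hh2 : h = 2 := by omega
    subst hh2
    obtain ⟨a, b, c, e, ha, hb, hc, he, _, _, hne⟩ := hB2 {0} ⟨0, rfl⟩ ⟨1, by simp⟩
    have ha' : a = 0 := ha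
    have hc' : c = 0 := hc
    have hb' : b ≠ 0 := hb
    have he' : e ≠ 0 := he
    apply hne
    have hb1 : b = 1 := by omega
    have he1 : e = 1 := by omega
    rw [ha', hc', hb1, he1]
  obtain ⟨hk1, hk2, hk3⟩ := hbook h h3
  have hT : ∀ K ∈ ({book h, B} : Set (SimpleGraph (Fin h))), TwoEdge K := by
    rintro K (rfl | rfl)
    · exact hk2
    · exact hB2
  have hcl : ∀ K ∈ ({book h, B} : Set (SimpleGraph (Fin h))), 𝒞 _ K := by
    rintro K (rfl | rfl)
    · exact hk1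
    · exact hB
  obtain ⟨c, hc, n₀, H⟩ := hA 𝒞 d hC h (by omega) {book h, B} ⟨B, Or.inr rfl⟩
    (fun K hK => ⟨hcl K hK, hT K hK⟩)
  refine ⟨c, hc, max n₀ 1, fun n hn => ?_⟩
  have hn1 : 1 ≤ n := (le_max_right _ _).trans hn
  have hn0 : (0 : ℝ) < n := by
    have : 0 < n := by omega
    exact_mod_cast this
  have hN : (0 : ℝ) < num 𝒞 n := by exact_mod_cast hpos n
  have h4 := H n ((le_max_left _ _).trans hn)
  have h4' : (cnt 𝒞 n (fun G => ∀ W, ¬ Site {book h, B} G W) : ℝ) ≤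
      Real.exp (-(c * n)) * num 𝒞 n := by
    refine le_trans ?_ h4
    have : cnt 𝒞 n (fun G => ∀ W, ¬ Site {book h, B} G W) ≤
        cnt 𝒞 n (fun G => ({W | Site {book h, B} G W}.ncard : ℝ) < c * n) := by
      apply cnt_mono
      intro G _ hG
      have : {W | Site {book h, B} G W} = ∅ := by
        ext W
        simp [hG W]
      rw [this, Set.ncard_empty, Nat.cast_zero]
      positivity
    exact_mod_cast this
  have h5 := balanced hC hP hT hcl (by linarith : 1 < q) (hk3 q hq) hBz n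
  have h6 : ∀ s : ℝ → Prop, cnt 𝒞 n (fun G => s ((chr G).eval q)) ≤
      cnt 𝒞 n (fun G => (∃ W, Site {book h, B} G W) ∧ s ((chr G).eval q)) +
        cnt 𝒞 n (fun G => ∀ W, ¬ Site {book h, B} G W) := by
    intro s
    apply cnt_le_add
    intro G _ hG
    by_cases hs : ∃ W, Site {book h, B} G W
    · exact Or.inl ⟨hs, hG⟩
    · right
      push Not at hs
      exact hs
  have h7 : ∀ s : ℝ → Prop, cnt 𝒞 n (fun G => (∃ W, Site {book h, B} G W) ∧ s ((chr G).eval q)) ≤
      cnt 𝒞 n (fun G => s ((chr G).eval q)) := fun s => cnt_mono (fun _ _ hG => hG.2)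
  have hp1 := h6 (fun x => 0 < x)
  have hm1 := h6 (fun x => x < 0)
  have hp2 := h7 (fun x => 0 < x)
  have hm2 := h7 (fun x => x < 0)
  have h8 : cnt 𝒞 n (fun G => 0 < (chr G).eval q) + cnt 𝒞 n (fun G => (chr G).eval q < 0) =
      num 𝒞 n := by
    apply le_antisymm
    · apply add_le_cnt
      · intro _ _ _
        trivial
      · intro _ _ _
        trivial
      · rintro G ⟨h6, h7⟩
        linarith
    · apply cnt_le_add
      intro G hG _
      rcases lt_trichotomy ((chr G).eval q) 0 with h | h | h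
      · exact Or.inr h
      · exact absurd h (hnz _ G hG)
      · exact Or.inl h
  set p := cnt 𝒞 n (fun G => 0 < (chr G).eval q) with hpdef
  set m := cnt 𝒞 n (fun G => (chr G).eval q < 0) with hmdef
  set f := cnt 𝒞 n (fun G => ∀ W, ¬ Site {book h, B} G W) with hfdef
  have a1 : p ≤ m + f := by omega
  have a2 : m ≤ p + f := by omega
  have a1' : (p : ℝ) ≤ m + f := by exact_mod_cast a1
  have a2' : (m : ℝ) ≤ p + f := by exact_mod_cast a2
  have a3 : (p : ℝ) + m = num 𝒞 n := by exact_mod_cast h8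
  have h9 : share 𝒞 n (fun G => 0 < (chr G).eval q) = (p : ℝ) / num 𝒞 n := rfl
  have h10 : (p : ℝ) / num 𝒞 n - 1 / 2 = (p - m) / (2 * num 𝒞 n) := by
    have hm : (m : ℝ) = num 𝒞 n - p := by linarith
    rw [hm]
    field_simp
    ring
  have h11 : |(p : ℝ) - m| ≤ Real.exp (-(c * n)) * num 𝒞 n := by
    rw [abs_le]
    constructor <;> linarith
  rw [h9, h10, abs_div, abs_of_pos (by positivity : (0 : ℝ) < 2 * num 𝒞 n),
    div_le_iff₀ (by positivity)]
  have h12 : 0 ≤ Real.exp (-(c * n)) * num 𝒞 n := by positivity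
  nlinarith

end Pool.Agent.D0H36.BL
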