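import Pool.Agent.D0H36.BL.FlP

/-!
# The fifty percent law
-/

set_option autoImplicit false

namespace Pool.Agent.D0H36.BL

open Finset Polynomial Pool.Agent.H207R2.BL Filter

section cnt

variable {𝒞 : ∀ V : Type, SimpleGraph V → Prop} {n : ℕ}

theorem cnt_mono {p p' : SimpleGraph (Fin n) → Prop} (h : ∀ G, 𝒞 (Fin n) G → p G → p' G) :
    cnt 𝒞 n p ≤ cnt 𝒞 n p' := by
  classical
  rw [cnt_eq, cnt_eq]
  apply Finset.card_le_card
  intro G hG
  obtain ⟨h1, h2, h3⟩ := Finset.mem_filter.1 hG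
  exact Finset.mem_filter.2 ⟨h1, h2, h G h2 h3⟩

theorem cnt_le_add {p p' p'' : SimpleGraph (Fin n) → Prop} (h : ∀ G, 𝒞 (Fin n) G → p G → p' G ∨ p'' G) :
    cnt 𝒞 n p ≤ cnt 𝒞 n p' + cnt 𝒞 n p'' := by
  classical
  rw [cnt_eq, cnt_eq, cnt_eq]
  refine (Finset.card_le_card (t := (univ.filter (fun G => 𝒞 (Fin n) G ∧ p' G)) ∪
    (univ.filter (fun G => 𝒞 (Fin n) G ∧ p'' G))) ?_).trans (Finset.card_union_le _ _)
  intro G hG
  obtain ⟨h1, h2, h3⟩ := Finset.mem_filter.1 hG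
  rcases h G h2 h3 with h4 | h4
  · exact Finset.mem_union_left _ (Finset.mem_filter.2 ⟨h1, h2, h4⟩)
  · exact Finset.mem_union_right _ (Finset.mem_filter.2 ⟨h1, h2, h4⟩)

theorem add_le_cnt {p p' p'' : SimpleGraph (Fin n) → Prop} (h : ∀ G, 𝒞 (Fin n) G → p' G → p G)
    (h' : ∀ G, 𝒞 (Fin n) G → p'' G → p G) (hd : ∀ G, ¬ (p' G ∧ p'' G)) :
    cnt 𝒞 n p' + cnt 𝒞 n p'' ≤ cnt 𝒞 n p := by
  classical
  rw [cnt_eq, cnt_eq, cnt_eq, ← Finset.card_union_of_disjoint]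
  · apply Finset.card_le_card
    intro G hG
    rcases Finset.mem_union.1 hG with hG | hG
    · obtain ⟨h1, h2, h3⟩ := Finset.mem_filter.1 hG
      exact Finset.mem_filter.2 ⟨h1, h2, h G h2 h3⟩
    · obtain ⟨h1, h2, h3⟩ := Finset.mem_filter.1 hG
      exact Finset.mem_filter.2 ⟨h1, h2, h' G h2 h3⟩
  · rw [Finset.disjoint_left]
    intro G hG hG'
    exact hd G ⟨(Finset.mem_filter.1 hG).2.2, (Finset.mem_filter.1 hG').2.2⟩

/-- the share of the members with the property `p` -/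
noncomputable def share (𝒞 : ∀ V : Type, SimpleGraph V → Prop) (n : ℕ)
    (p : SimpleGraph (Fin n) → Prop) : ℝ := (cnt 𝒞 n p : ℝ) / (num 𝒞 n : ℝ)

theorem share_nonneg (p : SimpleGraph (Fin n) → Prop) : 0 ≤ share 𝒞 n p := by
  unfold share
  positivity

theorem share_le_one (p : SimpleGraph (Fin n) → Prop) : share 𝒞 n p ≤ 1 := by
  unfold share
  apply div_le_one_of_le₀
  · exact_mod_cast cnt_mono (fun _ _ _ => trivial)
  · positivity

theorem share_mono {p p' : SimpleGraph (Fin n) → Prop} (h : ∀ G, 𝒞 (Fin n) G → p G → p' G) :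
    share 𝒞 n p ≤ share 𝒞 n p' := by
  unfold share
  apply div_le_div_of_nonneg_right _ (by positivity)
  exact_mod_cast cnt_mono h

end cnt

variable {𝒞 : ∀ V : Type, SimpleGraph V → Prop} {d : ℕ}

/-- a root of one member is a root of almost all members -/
theorem zero_law (hC : Cls 𝒞 d) (hF : S_FREE) (hP : S_PROD) (hM : S_MIN) {q : ℝ} (hq : 1 < q)
    (hex : ∃ (V : Type) (_ : Finite V) (G : SimpleGraph V), 𝒞 V G ∧ (chr G).eval q = 0) :
    ∃ C : ℕ, ∀ n : ℕ, 4 ≤ n → n * cnt 𝒞 n (fun G => (chr G).eval q ≠ 0) ≤ C * num 𝒞 n := by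
  obtain ⟨h, B, h2, hB, hB2, hBz⟩ := (hM 𝒞 d hC q hq).2 hex
  obtain ⟨C, hCn⟩ := hF 𝒞 d hC h (by omega) {B} ⟨B, rfl⟩ (by
    rintro A rfl
    exact ⟨hB, hB2⟩)
  refine ⟨C, fun n hn => le_trans (Nat.mul_le_mul_left _ (cnt_mono ?_)) (hCn n hn)⟩
  intro G _ hG W hW
  apply hG
  have h1 := site_chr hP hW q
  have h3 : G.comap (W.orderEmbOfFin hW.card) = B := hW.look
  rw [h3, hBz, zero_mul, mul_zero] at h1
  rcases mul_eq_zero.1 h1 with h4 | h4
  · linarith
  · exact h4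

/-- if there is a negative value then half of the values are negative -/
theorem half_law (hC : Cls 𝒞 d) (hF : S_FREE) (hP : S_PROD) (hM : S_MIN)
    (hbook : ∀ h, 3 ≤ h → 𝒞 (Fin h) (book h) ∧ TwoEdge (book h) ∧
      ∀ q : ℝ, 2 < q → 0 < (chr (book h)).eval q) {q : ℝ} (hq : 2 < q)
    (hex : ∃ (V : Type) (_ : Finite V) (G : SimpleGraph V), 𝒞 V G ∧ (chr G).eval q < 0) :
    ∃ C : ℕ, ∀ n : ℕ, 4 ≤ n →
      n * cnt 𝒞 n (fun G => 0 < (chr G).eval q) ≤
        n * cnt 𝒞 n (fun G => (chr G).eval q < 0) + C * num 𝒞 n ∧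
      n * cnt 𝒞 n (fun G => (chr G).eval q < 0) ≤
        n * cnt 𝒞 n (fun G => 0 < (chr G).eval q) + C * num 𝒞 n := by
  obtain ⟨h, B, h2, hB, hB2, hBz⟩ := (hM 𝒞 d hC q (by linarith)).1 hex
  have h3 : 3 ≤ h := by
    by_contra hcon
    have hh2 : h = 2 := by omega
    subst hh2
    obtain ⟨a, b, c, e, ha, hb, hc, he, _, _, hne⟩ := hB2 {0} ⟨0, rfl⟩ ⟨1, by simp⟩
    have ha' : a = 0 := ha
    have hc' : c = 0 := hc
    have hb' : b ≠ 0 := hb
    have he' : e ≠ 0 := he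
    apply hne
    have hb1 : b = 1 := by omega
    have he1 : e = 1 := by omega
    rw [ha', hc', hb1, he1]
  obtain ⟨hk1, hk2, hk3⟩ := hbook h h3
  have hT : ∀ K ∈ ({book h, B} : Set (SimpleGraph (Fin h))), TwoEdge K := by
    rintro K (rfl | rfl)
    · exact hk2
    · exact hB2
  have hcl : ∀ K ∈ ({book h, B} : Set (SimpleGraph (Fin h))), 𝒞 _ K := by
    rintro K (rfl | rfl)
    · exact hk1
    · exact hB
  obtain ⟨C, hCn⟩ := hF 𝒞 d hC h (by omega) {book h, B} ⟨B, Or.inr rfl⟩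
    (fun K hK => ⟨hcl K hK, hT K hK⟩)
  refine ⟨C, fun n hn => ?_⟩
  have h4 := hCn n hn
  have h5 := balanced hC hP hT hcl (by linarith : 1 < q) (hk3 q hq) hBz n
  have h6 : ∀ s : ℝ → Prop, cnt 𝒞 n (fun G => s ((chr G).eval q)) ≤
      cnt 𝒞 n (fun G => (∃ W, Site {book h, B} G W) ∧ s ((chr G).eval q)) +
        cnt 𝒞 n (fun G => ∀ W, ¬ Site {book h, B} G W) := by
    intro s
    apply cnt_le_add
    intro G _ hG
    by_cases hs : ∃ W, Site {book h, B} G W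
    · exact Or.inl ⟨hs, hG⟩
    · right
      push Not at hs
      exact hs
  have h7 : ∀ s : ℝ → Prop, cnt 𝒞 n (fun G => (∃ W, Site {book h, B} G W) ∧ s ((chr G).eval q)) ≤
      cnt 𝒞 n (fun G => s ((chr G).eval q)) := fun s => cnt_mono (fun _ _ hG => hG.2)
  have hpos := h6 (fun x => 0 < x)
  have hneg := h6 (fun x => x < 0)
  have hpos' := h7 (fun x => 0 < x)
  have hneg' := h7 (fun x => x < 0)
  set p := cnt 𝒞 n (fun G => 0 < (chr G).eval q)
  set m := cnt 𝒞 n (fun G => (chr G).eval q < 0)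
  set f := cnt 𝒞 n (fun G => ∀ W, ¬ Site {book h, B} G W)
  have a1 : p ≤ m + f := by omega
  have a2 : m ≤ p + f := by omega
  constructor
  · calc n * p ≤ n * (m + f) := Nat.mul_le_mul_left _ a1
      _ = n * m + n * f := by ring
      _ ≤ n * m + C * num 𝒞 n := by omega
  · calc n * m ≤ n * (p + f) := Nat.mul_le_mul_left _ a2
      _ = n * p + n * f := by ring
      _ ≤ n * p + C * num 𝒞 n := by omega

/-- some member on every `Fin n` -/
theorem num_pos (hC : Cls 𝒞 d) (hbook : ∀ h, 3 ≤ h → 𝒞 (Fin h) (book h)) (n : ℕ) :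
    0 < num 𝒞 n := by
  classical
  have hex : ∃ G : SimpleGraph (Fin n), 𝒞 (Fin n) G := by
    have h1 := hbook (n + 3) (by omega)
    exact ⟨_, hC.emb (Fin n) (Fin (n + 3)) (Fin.castAdd 3) (Fin.castAdd_injective n 3) _ h1⟩
  obtain ⟨G, hG⟩ := hex
  unfold num
  rw [cnt_eq]
  exact Finset.card_pos.2 ⟨G, Finset.mem_filter.2 ⟨Finset.mem_univ _, hG, trivial⟩⟩

/-- in terms of shares -/
theorem share_zero (hC : Cls 𝒞 d) (hF : S_FREE) (hP : S_PROD) (hM : S_MIN)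
    (hpos : ∀ n, 0 < num 𝒞 n) {q : ℝ} (hq : 1 < q)
    (hex : ∃ (V : Type) (_ : Finite V) (G : SimpleGraph V), 𝒞 V G ∧ (chr G).eval q = 0) :
    ∃ C : ℝ, ∀ n : ℕ, 1 ≤ n → share 𝒞 n (fun G => (chr G).eval q ≠ 0) ≤ C / n := by
  obtain ⟨C, hCn⟩ := zero_law hC hF hP hM hq hex
  refine ⟨(C : ℝ) + 4, fun n hn => ?_⟩
  have hn0 : (0 : ℝ) < n := by exact_mod_cast hn
  have hN : (0 : ℝ) < num 𝒞 n := by exact_mod_cast hpos n
  by_cases h4 : 4 ≤ n
  · have h1 : (n : ℝ) * cnt 𝒞 n (fun G => (chr G).eval q ≠ 0) ≤ C * num 𝒞 n := by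
      exact_mod_cast hCn n h4
    unfold share
    rw [div_le_div_iff₀ hN hn0]
    nlinarith
  · refine (share_le_one _).trans ?_
    rw [le_div_iff₀ hn0]
    have : (n : ℝ) ≤ 4 := by
      have : n ≤ 4 := by omega
      exact_mod_cast this
    have hC0 : (0 : ℝ) ≤ C := by positivity
    linarith

theorem share_half (hC : Cls 𝒞 d) (hF : S_FREE) (hP : S_PROD) (hM : S_MIN)
    (hbook : ∀ h, 3 ≤ h → 𝒞 (Fin h) (book h) ∧ TwoEdge (book h) ∧
      ∀ q : ℝ, 2 < q → 0 < (chr (book h)).eval q) (hpos : ∀ n, 0 < num 𝒞 n) {q : ℝ} (hq : 2 < q)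
    (hex : ∃ (V : Type) (_ : Finite V) (G : SimpleGraph V), 𝒞 V G ∧ (chr G).eval q < 0)
    (hnz : ∀ (V : Type) [Finite V] (G : SimpleGraph V), 𝒞 V G → (chr G).eval q ≠ 0) :
    ∃ C : ℝ, ∀ n : ℕ, 1 ≤ n → |share 𝒞 n (fun G => 0 < (chr G).eval q) - 1 / 2| ≤ C / n := by
  obtain ⟨C, hCn⟩ := half_law hC hF hP hM hbook hq hex
  refine ⟨(C : ℝ) + 4, fun n hn => ?_⟩
  have hn0 : (0 : ℝ) < n := by exact_mod_cast hn
  have hN : (0 : ℝ) < num 𝒞 n := by exact_mod_cast hpos n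
  have hC0 : (0 : ℝ) ≤ C := by positivity
  by_cases h4 : 4 ≤ n
  · obtain ⟨h1, h2⟩ := hCn n h4
    have h5 : cnt 𝒞 n (fun G => 0 < (chr G).eval q) + cnt 𝒞 n (fun G => (chr G).eval q < 0) =
        num 𝒞 n := by
      apply le_antisymm
      · apply add_le_cnt
        · intro _ _ _
          trivial
        · intro _ _ _
          trivial
        · rintro G ⟨h6, h7⟩
          linarith
      · apply cnt_le_add
        intro G hG _
        rcases lt_trichotomy ((chr G).eval q) 0 with h | h | h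
        · exact Or.inr h
        · exact absurd h (hnz _ G hG)
        · exact Or.inl h
    set p := cnt 𝒞 n (fun G => 0 < (chr G).eval q)
    set m := cnt 𝒞 n (fun G => (chr G).eval q < 0)
    have h1' : (n : ℝ) * p ≤ n * m + C * num 𝒞 n := by exact_mod_cast h1
    have h2' : (n : ℝ) * m ≤ n * p + C * num 𝒞 n := by exact_mod_cast h2
    have h5' : (p : ℝ) + m = num 𝒞 n := by exact_mod_cast h5
    have h6 : share 𝒞 n (fun G => 0 < (chr G).eval q) = (p : ℝ) / num 𝒞 n := rfl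
    have h7 : (p : ℝ) / num 𝒞 n - 1 / 2 = (p - m) / (2 * num 𝒞 n) := by
      have hm : (m : ℝ) = num 𝒞 n - p := by linarith
      rw [hm]
      field_simp
      ring
    have h8 : |(p : ℝ) - m| * n ≤ C * num 𝒞 n := by
      have h9 : |(p : ℝ) - m| * n = |((p : ℝ) - m) * n| := by rw [abs_mul, abs_of_pos hn0]
      rw [h9, abs_le]
      constructor <;> nlinarith
    rw [h6, h7, abs_div, abs_of_pos (by positivity : (0 : ℝ) < 2 * num 𝒞 n),
      div_le_div_iff₀ (by positivity) hn0]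
    nlinarith [mul_nonneg hC0 hN.le]
  · have h6 : |share 𝒞 n (fun G => 0 < (chr G).eval q) - 1 / 2| ≤ 1 := by
      rw [abs_le]
      constructor <;> linarith [share_nonneg (𝒞 := 𝒞) (n := n) (fun G => 0 < (chr G).eval q),
        share_le_one (𝒞 := 𝒞) (n := n) (fun G => 0 < (chr G).eval q)]
    refine h6.trans ?_
    rw [le_div_iff₀ hn0]
    have : (n : ℝ) ≤ 4 := by
      have : n ≤ 4 := by omega
      exact_mod_cast this
    linarith

end Pool.Agent.D0H36.BL
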