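import Pool.Agent.D0H36.BL.Stm

/-!
# Graphs with a `K₅` minor or a `K₃₃` minor are not in the class; the complete graph on four vertices
-/

set_option autoImplicit false

namespace Pool.Agent.D0H36.BL

open Polynomial Pool.Agent.H207R2.BL Pool.Agent.Y865.RF Pool.Agent.R814.BL

/-- `K` is a minor of `G` -/
def IsMinor {V W : Type} (K : SimpleGraph W) (G : SimpleGraph V) : Prop :=
  ∃ β : W → Set V, (∀ w, (G.induce (β w)).Connected) ∧ (∀ w w', w ≠ w' → Disjoint (β w) (β w')) ∧
    ∀ w w', K.Adj w w' → ∃ x ∈ β w, ∃ y ∈ β w', G.Adj x y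

theorem cn_of_walk {V : Type} {G : SimpleGraph V} {S : Set V} {a b : S}
    (p : (G.induce S).Walk a b) : Cn G S a.1 b.1 := by
  induction p with
  | @nil u => exact Cn.refl u.2
  | @cons u v w h p ih => exact (Cn.adj (show G.Adj u.1 v.1 from h) u.2 v.2).trans ih

theorem cn_of_conn {V : Type} {G : SimpleGraph V} {S : Set V} (h : (G.induce S).Connected)
    {x y : V} (hx : x ∈ S) (hy : y ∈ S) : Cn G S x y := by
  obtain ⟨p⟩ := h.preconnected ⟨x, hx⟩ ⟨y, hy⟩
  exact cn_of_walk p

theorem cn_join {V : Type} {G : SimpleGraph V} {S T : Set V} (hS : (G.induce S).Connected)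
    (hT : (G.induce T).Connected) {x y : V} (hx : x ∈ S) (hy : y ∈ T)
    (h : ∃ a ∈ S, ∃ b ∈ T, G.Adj a b) : Cn G (S ∪ T) x y := by
  obtain ⟨a, ha, b, hb, hab⟩ := h
  have h1 : Cn G (S ∪ T) x a := (cn_of_conn hS hx ha).mono Set.subset_union_left
  have h2 : Cn G (S ∪ T) b y := (cn_of_conn hT hb hy).mono Set.subset_union_right
  exact (h1.trans (Cn.adj hab (Or.inl ha) (Or.inr hb))).trans h2

theorem wk_of_minor {V : Type} {G : SimpleGraph V}
    (h : IsMinor (⊤ : SimpleGraph (Fin 5)) G) : WK V G := by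
  obtain ⟨β, h1, h2, h3⟩ := h
  have hne : ∀ i, ∃ x, x ∈ β i := fun i => by
    obtain ⟨x⟩ := (h1 i).nonempty
    exact ⟨x.1, x.2⟩
  choose x hx using hne
  refine ⟨x, fun a b => β a ∪ β b, ?_, ?_⟩
  · intro a b hab
    exact cn_join (h1 a) (h1 b) (hx a) (hx b) (h3 a b (by simpa using hab.ne))
  · intro a b c d hab hcd hac had hbc hbd
    rw [Set.disjoint_union_left, Set.disjoint_union_right, Set.disjoint_union_right]
    exact ⟨⟨h2 a c hac, h2 a d had⟩, ⟨h2 b c hbc, h2 b d hbd⟩⟩

theorem wb_of_minor {V : Type} {G : SimpleGraph V}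
    (h : IsMinor (completeBipartiteGraph (Fin 3) (Fin 3)) G) : WB V G := by
  obtain ⟨β, h1, h2, h3⟩ := h
  have hne : ∀ i, ∃ x, x ∈ β i := fun i => by
    obtain ⟨x⟩ := (h1 i).nonempty
    exact ⟨x.1, x.2⟩
  choose x hx using hne
  refine ⟨fun i => x (Sum.inl i), fun i => x (Sum.inr i),
    fun a b => β (Sum.inl a) ∪ β (Sum.inr b), ?_, ?_⟩
  · intro a b
    exact cn_join (h1 _) (h1 _) (hx _) (hx _) (h3 _ _ (by simp [completeBipartiteGraph]))
  · intro a b c d hac hbd
    rw [Set.disjoint_union_left, Set.disjoint_union_right, Set.disjoint_union_right]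
    exact ⟨⟨h2 _ _ (fun h => hac (Sum.inl.inj h)), h2 _ _ (by simp)⟩,
      ⟨h2 _ _ (by simp), h2 _ _ (fun h => hbd (Sum.inr.inj h))⟩⟩

/-- members of the class have no `K₅` minor and no `K₃₃` minor -/
theorem no_minor {V : Type} {G : SimpleGraph V} (h : Cl V G) :
    ¬ IsMinor (⊤ : SimpleGraph (Fin 5)) G ∧ ¬ IsMinor (completeBipartiteGraph (Fin 3) (Fin 3)) G :=
  ⟨fun h1 => h.1 (wk_of_minor h1), fun h1 => h.2 (wb_of_minor h1)⟩

/-- the five points are different -/
theorem wk_inj {V : Type} {G : SimpleGraph V} (x : Fin 5 → V) (A : Fin 5 → Fin 5 → Set V)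
    (hA : ∀ a b, a < b → Cn G (A a b) (x a) (x b))
    (hd : ∀ a b c d, a < b → c < d → a ≠ c → a ≠ d → b ≠ c → b ≠ d → Disjoint (A a b) (A c d)) :
    Function.Injective x := by
  -- ends belong to the sets
  have he : ∀ a b, a ≠ b → ∃ p : Fin 5 × Fin 5, p.1 < p.2 ∧ ((p.1 = a ∧ p.2 = b) ∨ (p.1 = b ∧ p.2 = a)) ∧
      x a ∈ A p.1 p.2 := by
    intro a b hab
    rcases lt_or_gt_of_ne hab with h | h
    · obtain ⟨w, hw⟩ := hA a b h
      exact ⟨(a, b), h, Or.inl ⟨rfl, rfl⟩, hw _ w.start_mem_support⟩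
    · obtain ⟨w, hw⟩ := hA b a h
      exact ⟨(b, a), h, Or.inr ⟨rfl, rfl⟩, hw _ w.end_mem_support⟩
  intro a b hab
  by_contra hne
  have hcd : ∀ a b : Fin 5, ∃ c d : Fin 5, c ≠ a ∧ c ≠ b ∧ d ≠ a ∧ d ≠ b ∧ c ≠ d := by decide
  obtain ⟨c, d, hca, hcb, hda, hdb, hcd⟩ := hcd a b
  obtain ⟨p, hp, hp2, hp3⟩ := he a c hca.symm
  obtain ⟨r, hr, hr2, hr3⟩ := he b d hdb.symm
  have h1 := hd p.1 p.2 r.1 r.2 hp hr
    (by rcases hp2 with h | h <;> rcases hr2 with h' | h' <;> rw [h.1, h'.1] <;>
        first | exact hne | exact hda.symm | exact hcb | exact hcd)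
    (by rcases hp2 with h | h <;> rcases hr2 with h' | h' <;> rw [h.1, h'.2] <;>
        first | exact hne | exact hda.symm | exact hcb | exact hcd)
    (by rcases hp2 with h | h <;> rcases hr2 with h' | h' <;> rw [h.2, h'.1] <;>
        first | exact hne | exact hda.symm | exact hcb | exact hcd)
    (by rcases hp2 with h | h <;> rcases hr2 with h' | h' <;> rw [h.2, h'.2] <;>
        first | exact hne | exact hda.symm | exact hcb | exact hcd)
  exact Set.disjoint_left.1 h1 hp3 (hab ▸ hr3)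

/-- the three points on the first side are different -/
theorem wb_inj {V : Type} {G : SimpleGraph V} (x y : Fin 3 → V) (A : Fin 3 → Fin 3 → Set V)
    (hA : ∀ a b, Cn G (A a b) (x a) (y b))
    (hd : ∀ a b c d, a ≠ c → b ≠ d → Disjoint (A a b) (A c d)) :
    Function.Injective (Sum.elim x y) := by
  have hx : ∀ a b, x a ∈ A a b := fun a b => by
    obtain ⟨w, hw⟩ := hA a b
    exact hw _ w.start_mem_support
  have hy : ∀ a b, y b ∈ A a b := fun a b => by
    obtain ⟨w, hw⟩ := hA a b
    exact hw _ w.end_mem_support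
  have hcd : ∀ a : Fin 3, ∃ c : Fin 3, c ≠ a := by decide
  have key1 : ∀ a b, x a = x b → a = b := by
    intro a b hab
    by_contra hne
    exact Set.disjoint_left.1 (hd a 0 b 1 hne (by decide)) (hx a 0) (hab ▸ hx b 1)
  have key2 : ∀ a b, y a = y b → a = b := by
    intro a b hab
    by_contra hne
    exact Set.disjoint_left.1 (hd 0 a 1 b (by decide) hne) (hy 0 a) (hab ▸ hy 1 b)
  have key3 : ∀ a b, x a ≠ y b := by
    intro a b hab
    obtain ⟨c, hc⟩ := hcd a
    obtain ⟨e, he⟩ := hcd b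
    exact Set.disjoint_left.1 (hd a e c b hc.symm he) (hx a e) (hab ▸ hy c b)
  rintro (a | a) (b | b) hab
  · rw [key1 a b hab]
  · exact absurd hab (key3 a b)
  · exact absurd hab.symm (key3 b a)
  · rw [key2 a b hab]

/-- graphs with at most four vertices belong to the class -/
theorem cl_small {V : Type} [Finite V] (hV : Nat.card V ≤ 4) (G : SimpleGraph V) : Cl V G := by
  constructor
  · rintro ⟨x, A, hA, hd⟩
    have h1 := Nat.card_le_card_of_injective x (wk_inj x A hA hd)
    rw [Nat.card_eq_fintype_card, Fintype.card_fin] at h1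
    omega
  · rintro ⟨x, y, A, hA, hd⟩
    have h1 := Nat.card_le_card_of_injective _ (wb_inj x y A hA hd)
    rw [Nat.card_eq_fintype_card, Fintype.card_sum, Fintype.card_fin] at h1
    omega

/-- the chromatic polynomial of the complete graph on four vertices -/
theorem chr_K4 (q : ℝ) : (chr (⊤ : SimpleGraph (Fin 4))).eval q = q * (q - 1) * (q - 2) * (q - 3) := by
  have h : X * (X - 1) * (X - 2) * (X - 3) = chr (⊤ : SimpleGraph (Fin 4)) := by
    apply eq_chr
    intro k
    have e : (⊤ : SimpleGraph (Fin 4)).Coloring (Fin k) ≃ (Fin 4 ↪ Fin k) :=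
      { toFun := fun c => ⟨c, fun a b hab => by
          by_contra hne
          exact c.valid (show (⊤ : SimpleGraph (Fin 4)).Adj a b from hne) hab⟩
        invFun := fun f => SimpleGraph.Coloring.mk f (fun {a b} hab h => hab (f.injective h))
        left_inv := fun c => RelHom.ext fun v => rfl
        right_inv := fun f => by
          ext v
          rfl }
    rw [Nat.card_congr e, Nat.card_eq_fintype_card, Fintype.card_embedding_eq, Fintype.card_fin,
      Fintype.card_fin]
    simp only [eval_mul, eval_X, eval_sub, eval_one, eval_ofNat]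
    rcases Nat.lt_or_ge k 4 with hk | hk
    · interval_cases k <;> simp [Nat.descFactorial]
    · obtain ⟨m, rfl⟩ := Nat.exists_eq_add_of_le' hk
      simp only [Nat.descFactorial]
      have e1 : m + 4 - 3 = m + 1 := by omega
      have e2 : m + 4 - 2 = m + 2 := by omega
      have e3 : m + 4 - 1 = m + 3 := by omega
      rw [e1, e2, e3]
      push_cast
      ring
  rw [← h]
  simp only [eval_mul, eval_X, eval_sub, eval_one, eval_ofNat]

end Pool.Agent.D0H36.BL
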