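import Pool.Agent.D0H36.BL.FlP
import Pool.Agent.D0H36.BL.Stm2

/-!
# Disjoint pieces with a root give a multiple root
-/

set_option autoImplicit false

namespace Pool.Agent.D0H36.BL

open Polynomial Pool.Agent.H207R2.BL

/-- the induced graph of an induced graph -/
def indIso {V : Type} (G : SimpleGraph V) (U S : Set V) (hS : S ⊆ U) :
    (G.induce U).induce {z : U | z.1 ∈ S} ≃g G.induce S where
  toFun z := ⟨z.1.1, z.2⟩
  invFun z := ⟨⟨z.1, hS z.2⟩, z.2⟩
  left_inv _ := rfl
  right_inv _ := rfl
  map_rel_iff' := Iff.rfl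

theorem mu (hP : S_PROD) : S_MULT := by
  have main : ∀ (q : ℝ), 1 < q → ∀ (s : ℕ) (V : Type) [Finite V] (G : SimpleGraph V)
      (W : Fin s → Set V), (∀ i j, i ≠ j → Disjoint (W i) (W j)) →
      (∀ i a b c d, a ∈ W i → b ∉ W i → c ∈ W i → d ∉ W i → G.Adj a b → G.Adj c d → a = c ∧ b = d) →
      (∀ i, (chr (G.induce (W i))).eval q = 0) → (X - C q) ^ s ∣ chr G := by
    intro q hq s
    induction s with
    | zero =>
      intro V _ G W _ _ _
      rw [pow_zero]
      exact one_dvd _
    | succ s ih =>
      intro V _ G W hd he hz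
      set U := W (Fin.last s) with hU
      have hsub : ∀ i : Fin s, W i.castSucc ⊆ Uᶜ := by
        intro i z hz hzU
        exact Set.disjoint_left.1 (hd i.castSucc (Fin.last s) (Fin.castSucc_lt_last i).ne) hz hzU
      have h1 : (X - C q) ^ s ∣ chr (G.induce Uᶜ) := by
        refine ih (↥(Uᶜ : Set V)) (G.induce Uᶜ)
          (fun i => {z : ↥(Uᶜ : Set V) | z.1 ∈ W i.castSucc}) ?_ ?_ ?_
        · intro i j hij
          rw [Set.disjoint_left]
          intro z hz hz'
          exact Set.disjoint_left.1 (hd i.castSucc j.castSucc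
            (fun h => hij (Fin.castSucc_injective s h))) hz hz'
        · intro i a b c d ha hb hc hd hab hcd
          have h2 := he i.castSucc a.1 b.1 c.1 d.1 ha hb hc hd hab hcd
          exact ⟨Subtype.ext h2.1, Subtype.ext h2.2⟩
        · intro i
          rw [chr_of_iso (indIso G Uᶜ (W i.castSucc) (hsub i))]
          exact hz i.castSucc
      have h2 : (X - C q) ∣ chr (G.induce U) := dvd_iff_isRoot.2 (hz (Fin.last s))
      have h3 : (X - C q) ^ (s + 1) ∣ chr (G.induce U) * chr (G.induce Uᶜ) := by
        rw [pow_succ']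
        exact mul_dvd_mul h2 h1
      by_cases hx : ∃ r x, r ∈ U ∧ x ∉ U ∧ G.Adj r x
      · obtain ⟨r, x, hr, hx, hrx⟩ := hx
        have h4 := (hP V G U).2 r x hr hx (fun a b ha hb =>
          ⟨fun hab => he (Fin.last s) a b r x ha hb hr hx hab hrx, fun h => by
            rw [h.1, h.2]
            exact hrx⟩)
        have h5 : (X - C q) ^ (s + 1) ∣ X * chr G := by
          rw [h4]
          exact Dvd.dvd.mul_left h3 _
        have h6 : IsCoprime ((X - C q : ℝ[X]) ^ (s + 1)) X := by
          apply IsCoprime.pow_left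
          have h7 : IsCoprime (X - C q : ℝ[X]) (X - C 0) := by
            apply Polynomial.isCoprime_X_sub_C_of_isUnit_sub
            rw [sub_zero, isUnit_iff_ne_zero]
            linarith
          rwa [map_zero, sub_zero] at h7
        exact h6.dvd_of_dvd_mul_left h5
      · push Not at hx
        have h4 := (hP V G U).1 (fun a b ha hb => hx a b ha hb)
        rw [h4]
        exact h3
  intro V _ G q hq s W h1 h2 h3
  exact main q hq s V G W h1 h2 h3

end Pool.Agent.D0H36.BL
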