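import Pool.Agent.D0H36.BL.Law2P
import Pool.Agent.D0H36.BL.MultP
import Pool.Agent.D0H36.BL.MinP
import Pool.Agent.D0H22.BL.StP
import Pool.Agent.D0H70.BL.Ra
import Pool.Agent.D0H70.BL.Pr
import Pool.Agent.D0H73.BL.ClsP

/-!
# The laws for planar graphs
-/

set_option autoImplicit false

namespace Pool.Agent.D0H36.BL

open Polynomial Pool.Agent.H207R2.BL Filter
open Pool.Agent.R814.BL (Cl cl_mc)

theorem hCL : Cls Cl 5 := Pool.Agent.D0H73.BL.t_CLS

theorem hRA : S_RATIO := Pool.Agent.D0H70.BL.ra Pool.Agent.D0H22.BL.t_STRUCT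

theorem hMA : S_MANY := many hRA

theorem hPR : S_PROD := Pool.Agent.D0H70.BL.prod

theorem hMN : S_MIN := Pool.Agent.D0H70.BL.mn hPR

theorem hMU : S_MULT := mu hPR

theorem hBK : ∀ h, 3 ≤ h → Cl (Fin h) (book h) ∧ TwoEdge (book h) ∧
    ∀ q : ℝ, 2 < q → 0 < (chr (book h)).eval q := Pool.Agent.D0H73.BL.t_BOOK

theorem hNP (n : ℕ) : 0 < num Cl n := num_pos hCL (fun h hh => (hBK h hh).1) n

/-- Birkhoff and Lewis -/
theorem pos_gt_five {V : Type} [Finite V] (G : SimpleGraph V) (hG : Cl V G) {q : ℝ} (hq : 5 < q) :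
    0 < (chr G).eval q :=
  minor_pos Cl cl_mc 5 (fun V _ _ G hG => Pool.Agent.Y865.RF.t_deg V G hG.1) q (by exact_mod_cast hq)
    G hG

theorem exists_root {V : Type} [Finite V] (G : SimpleGraph V) (hG : Cl V G) {q : ℝ} (hq : 4 ≤ q)
    (h : (chr G).eval q ≤ 0) : ∃ r : ℝ, 4 ≤ r ∧ (chr G).eval r = 0 := by
  have hq5 : q ≤ 5 := by
    by_contra hcon
    push Not at hcon
    linarith [pos_gt_five G hG hcon]
  have h6 : 0 < (chr G).eval 6 := pos_gt_five G hG (by norm_num)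
  have hc : ContinuousOn (fun x => (chr G).eval x) (Set.Icc q 6) := (chr G).continuous.continuousOn
  have h7 := intermediate_value_Icc (by linarith : q ≤ 6) hc
  obtain ⟨r, hr, hr0⟩ := h7 ⟨h, h6.le⟩
  exact ⟨r, hq.trans hr.1, hr0⟩

theorem root_planar {q : ℝ} (hq : 1 < q)
    (hex : ∃ (V : Type) (_ : Finite V) (G : SimpleGraph V), Cl V G ∧ (chr G).eval q = 0) :
    ∃ c : ℝ, 0 < c ∧ ∃ n₀ : ℕ, ∀ n : ℕ, n₀ ≤ n →
      share Cl n (fun G => ((chr G).rootMultiplicity q : ℝ) < c * n) ≤ Real.exp (-(c * n)) :=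
  root_law hCL hMA hMU hMN hNP hq hex

theorem half_planar {q : ℝ} (hq : 2 < q)
    (hex : ∃ (V : Type) (_ : Finite V) (G : SimpleGraph V), Cl V G ∧ (chr G).eval q < 0)
    (hnz : ∀ (V : Type) [Finite V] (G : SimpleGraph V), Cl V G → (chr G).eval q ≠ 0) :
    ∃ c : ℝ, 0 < c ∧ ∃ n₀ : ℕ, ∀ n : ℕ, n₀ ≤ n →
      |share Cl n (fun G => 0 < (chr G).eval q) - 1 / 2| ≤ Real.exp (-(c * n)) :=
  half_exp hCL hMA hPR hMN hBK hNP hq hex hnz

/-- every value between two and three which is not a root: exactly half -/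
theorem between_two_three {q : ℝ} (hq : 2 < q) (hq3 : q < 3)
    (hnz : ∀ (V : Type) [Finite V] (G : SimpleGraph V), Cl V G → (chr G).eval q ≠ 0) :
    ∃ c : ℝ, 0 < c ∧ ∃ n₀ : ℕ, ∀ n : ℕ, n₀ ≤ n →
      |share Cl n (fun G => 0 < (chr G).eval q) - 1 / 2| ≤ Real.exp (-(c * n)) := by
  refine half_planar hq ⟨Fin 4, inferInstance, ⊤, cl_small (by simp) ⊤, ?_⟩ hnz
  rw [chr_K4]
  have h1 : 0 < q * (q - 1) * (q - 2) := by
    have : 0 < q := by linarith
    have : 0 < q - 1 := by linarith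
    have : 0 < q - 2 := by linarith
    positivity
  nlinarith

theorem card_roots_ge {n : ℕ} (G : SimpleGraph (Fin n)) {r : ℝ} (hr : 4 ≤ r) :
    (chr G).rootMultiplicity r ≤ ((chr G).roots.filter (fun x => 4 ≤ x)).card := by
  classical
  rw [← count_roots]
  have h1 : (chr G).roots.count r = ((chr G).roots.filter (fun x => 4 ≤ x)).count r := by
    rw [Multiset.count_filter_of_pos hr]
  rw [h1]
  exact Multiset.count_le_card _ _

/-- linearly many roots `≥ 4` -/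
theorem many_roots (hex : ∃ (V : Type) (_ : Finite V) (G : SimpleGraph V) (q : ℝ), Cl V G ∧ 4 ≤ q ∧
      (chr G).eval q ≤ 0) :
    ∃ c : ℝ, 0 < c ∧ ∃ n₀ : ℕ, ∀ n : ℕ, n₀ ≤ n →
      share Cl n (fun G => (((chr G).roots.filter (fun x => 4 ≤ x)).card : ℝ) < c * n) ≤
        Real.exp (-(c * n)) := by
  obtain ⟨V, hV, G, q, hG, hq, h⟩ := hex
  obtain ⟨r, hr, hr0⟩ := exists_root G hG hq h
  obtain ⟨c, hc, n₀, H⟩ := root_planar (by linarith : 1 < r) ⟨V, hV, G, hG, hr0⟩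
  refine ⟨c, hc, n₀, fun n hn => le_trans (share_mono ?_) (H n hn)⟩
  intro G _ hG
  refine lt_of_le_of_lt ?_ hG
  exact_mod_cast card_roots_ge G hr

/-- transcendental numbers are not roots -/
theorem root_algebraic {V : Type} [Finite V] (G : SimpleGraph V) {q : ℝ} (h : (chr G).eval q = 0) :
    IsAlgebraic ℤ q := by
  refine ⟨(exists_chrom G).choose, ?_, ?_⟩
  · intro h0
    have h1 := chr_ne_zero G
    unfold chr at h1
    rw [h0, Polynomial.map_zero] at h1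
    exact h1 rfl
  · unfold chr at h
    rw [eval_map] at h
    exact h

end Pool.Agent.D0H36.BL
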