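import Pool.Agent.D0H36.BL.Stm

/-!
# Sites: disjointness, replacing a site
-/

set_option autoImplicit false

namespace Pool.Agent.D0H36.BL

open Finset

section

variable {h n : ℕ}

theorem exists_en {W : Finset (Fin n)} (hW : W.card = h) {z : Fin n} (hz : z ∈ W) :
    ∃ i, W.orderEmbOfFin hW i = z := by
  have : z ∈ Set.range (W.orderEmbOfFin hW) := by
    rw [Finset.range_orderEmbOfFin]
    exact hz
  exact this

/-- different sites are disjoint -/
theorem Site.disjoint {T : Set (SimpleGraph (Fin h))} {G : SimpleGraph (Fin n)}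
    {W W' : Finset (Fin n)} (hT : ∀ A ∈ T, TwoEdge A) (hW : Site T G W) (hW' : Site T G W')
    (hne : W ≠ W') : Disjoint W W' := by
  classical
  by_contra hd
  rw [Finset.not_disjoint_iff] at hd
  obtain ⟨y, hy, hy'⟩ := hd
  let X : Set (Fin h) := {i | W'.orderEmbOfFin hW'.card i ∈ W}
  have hX : X.Nonempty := by
    obtain ⟨i, hi⟩ := exists_en hW'.card hy'
    refine ⟨i, ?_⟩
    show W'.orderEmbOfFin hW'.card i ∈ W
    rw [hi]
    exact hy
  have hXc : Xᶜ.Nonempty := by
    have : ∃ z ∈ W', z ∉ W := by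
      by_contra hcon
      push Not at hcon
      exact hne (Finset.eq_of_subset_of_card_le hcon (by rw [hW.card, hW'.card])).symm
    obtain ⟨z, hz, hzW⟩ := this
    obtain ⟨i, hi⟩ := exists_en hW'.card hz
    refine ⟨i, ?_⟩
    show W'.orderEmbOfFin hW'.card i ∉ W
    rw [hi]
    exact hzW
  obtain ⟨a, b, c, d, ha, hb, hc, hd, hab, hcd, hne2⟩ := hT _ hW'.look X hX hXc
  obtain ⟨r, x, hr, hx, hrx⟩ := hW.one
  have h1 := (hrx _ _ ha hb).1 hab
  have h2 := (hrx _ _ hc hd).1 hcd
  apply hne2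
  have e1 : a = c := (W'.orderEmbOfFin hW'.card).injective (h1.1.trans h2.1.symm)
  have e2 : b = d := (W'.orderEmbOfFin hW'.card).injective (h1.2.trans h2.2.symm)
  rw [e1, e2]

/-- the graph `G` with `A` on the set `W` -/
def repl (G : SimpleGraph (Fin n)) (W : Finset (Fin n)) (hW : W.card = h) (A : SimpleGraph (Fin h)) :
    SimpleGraph (Fin n) where
  Adj x y := (¬ (x ∈ W ∧ y ∈ W) ∧ G.Adj x y) ∨
    ∃ i j, W.orderEmbOfFin hW i = x ∧ W.orderEmbOfFin hW j = y ∧ A.Adj i j
  symm := ⟨by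
    rintro x y (⟨h1, h2⟩ | ⟨i, j, h1, h2, h3⟩)
    · exact Or.inl ⟨fun h => h1 ⟨h.2, h.1⟩, h2.symm⟩
    · exact Or.inr ⟨j, i, h2, h1, h3.symm⟩⟩
  loopless := ⟨by
    rintro x (⟨_, h2⟩ | ⟨i, j, h1, h2, h3⟩)
    · exact h2.ne rfl
    · exact h3.ne ((W.orderEmbOfFin hW).injective (h1.trans h2.symm))⟩

variable (G : SimpleGraph (Fin n)) (W : Finset (Fin n)) (hW : W.card = h) (A : SimpleGraph (Fin h))

theorem repl_look : (repl G W hW A).comap (W.orderEmbOfFin hW) = A := by
  ext i j
  constructor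
  · rintro (⟨h1, _⟩ | ⟨i', j', h1, h2, h3⟩)
    · exact absurd ⟨Finset.orderEmbOfFin_mem _ _ _, Finset.orderEmbOfFin_mem _ _ _⟩ h1
    · rw [(W.orderEmbOfFin hW).injective h1, (W.orderEmbOfFin hW).injective h2] at h3
      exact h3
  · intro h
    exact Or.inr ⟨i, j, rfl, rfl, h⟩

theorem repl_off {x y : Fin n} (hxy : ¬ (x ∈ W ∧ y ∈ W)) :
    (repl G W hW A).Adj x y ↔ G.Adj x y := by
  constructor
  · rintro (⟨_, h2⟩ | ⟨i, j, h1, h2, h3⟩)
    · exact h2
    · exact absurd ⟨h1 ▸ Finset.orderEmbOfFin_mem _ _ _, h2 ▸ Finset.orderEmbOfFin_mem _ _ _⟩ hxy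
  · intro h
    exact Or.inl ⟨hxy, h⟩

/-- two graphs which agree off `W` and on `W` are equal -/
theorem eq_of_look {G H : SimpleGraph (Fin n)} {W : Finset (Fin n)} (hW : W.card = h)
    (hoff : ∀ x y, ¬ (x ∈ W ∧ y ∈ W) → (G.Adj x y ↔ H.Adj x y))
    (hon : G.comap (W.orderEmbOfFin hW) = H.comap (W.orderEmbOfFin hW)) : G = H := by
  ext x y
  by_cases hxy : x ∈ W ∧ y ∈ W
  · obtain ⟨i, hi⟩ := exists_en hW hxy.1
    obtain ⟨j, hj⟩ := exists_en hW hxy.2
    have := congrArg (fun K : SimpleGraph (Fin h) => K.Adj i j) hon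
    simp only [SimpleGraph.comap_adj, hi, hj] at this
    rw [this]
  · exact hoff x y hxy

theorem repl_repl (B : SimpleGraph (Fin h)) (hB : G.comap (W.orderEmbOfFin hW) = B) :
    repl (repl G W hW A) W hW B = G := by
  refine eq_of_look hW (fun x y hxy => ?_) ?_
  · rw [repl_off _ _ _ _ hxy, repl_off _ _ _ _ hxy]
  · rw [repl_look, hB]

/-- replacing at a site gives a graph of which `W` is a site -/
theorem site_repl {T : Set (SimpleGraph (Fin h))} {G : SimpleGraph (Fin n)} {W : Finset (Fin n)}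
    (hs : Site T G W) {A : SimpleGraph (Fin h)} (hA : A ∈ T) : Site T (repl G W hs.card A) W where
  card := hs.card
  look := by
    rw [repl_look]
    exact hA
  one := by
    obtain ⟨r, x, hr, hx, hrx⟩ := hs.one
    refine ⟨r, x, hr, hx, fun a b ha hb => ?_⟩
    rw [repl_off _ _ _ _ (fun h => hb h.2)]
    exact hrx a b ha hb

/-- the other sites do not change -/
theorem site_repl_other {T : Set (SimpleGraph (Fin h))} {G : SimpleGraph (Fin n)}
    {W W' : Finset (Fin n)} (hW : W.card = h) (A : SimpleGraph (Fin h)) (hd : Disjoint W W') :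
    Site T (repl G W hW A) W' ↔ Site T G W' := by
  have key : ∀ a b, a ∈ W' → ((repl G W hW A).Adj a b ↔ G.Adj a b) := by
    intro a b ha
    exact repl_off _ _ _ _ (fun h => Finset.disjoint_left.1 hd h.1 ha)
  constructor
  · intro h
    refine ⟨h.card, ?_, ?_⟩
    · have := h.look
      have e : (repl G W hW A).comap (W'.orderEmbOfFin h.card) = G.comap (W'.orderEmbOfFin h.card) := by
        ext i j
        exact key _ _ (Finset.orderEmbOfFin_mem _ _ _)
      rw [← e]
      exact this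
    · obtain ⟨r, x, hr, hx, hrx⟩ := h.one
      refine ⟨r, x, hr, hx, fun a b ha hb => ?_⟩
      rw [← key a b ha]
      exact hrx a b ha hb
  · intro h
    refine ⟨h.card, ?_, ?_⟩
    · have := h.look
      have e : (repl G W hW A).comap (W'.orderEmbOfFin h.card) = G.comap (W'.orderEmbOfFin h.card) := by
        ext i j
        exact key _ _ (Finset.orderEmbOfFin_mem _ _ _)
      rw [e]
      exact this
    · obtain ⟨r, x, hr, hx, hrx⟩ := h.one
      refine ⟨r, x, hr, hx, fun a b ha hb => ?_⟩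
      rw [key a b ha]
      exact hrx a b ha hb

/-- the set of the sites does not change when a site is replaced -/
theorem site_repl_iff {T : Set (SimpleGraph (Fin h))} (hT : ∀ A ∈ T, TwoEdge A)
    {G : SimpleGraph (Fin n)} {W : Finset (Fin n)} (hs : Site T G W) {A : SimpleGraph (Fin h)}
    (hA : A ∈ T) (W' : Finset (Fin n)) : Site T (repl G W hs.card A) W' ↔ Site T G W' := by
  by_cases hne : W = W'
  · subst hne
    exact ⟨fun _ => hs, fun _ => site_repl hs hA⟩
  · constructor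
    · intro h
      exact (site_repl_other hs.card A ((site_repl hs hA).disjoint hT h hne)).1 h
    · intro h
      exact (site_repl_other hs.card A (hs.disjoint hT h hne)).2 h

end

/-! ### membership in the class -/

theorem ins_map {V W : Type} (f : V ↪ W) (G : SimpleGraph W) :
    ins G (Set.range f) = (G.comap f).map f := by
  ext x y
  rw [SimpleGraph.map_adj]
  constructor
  · rintro ⟨⟨a, rfl⟩, ⟨b, rfl⟩, h⟩
    exact ⟨a, b, h, rfl, rfl⟩
  · rintro ⟨a, b, h, rfl, rfl⟩
    exact ⟨⟨a, rfl⟩, ⟨b, rfl⟩, h⟩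

theorem cls_repl {𝒞 : ∀ V : Type, SimpleGraph V → Prop} {d : ℕ} (hC : Cls 𝒞 d) {h n : ℕ}
    {T : Set (SimpleGraph (Fin h))} {G : SimpleGraph (Fin n)} {W : Finset (Fin n)}
    (hs : Site T G W) {A : SimpleGraph (Fin h)} (hA : 𝒞 _ A) (hG : 𝒞 _ G) :
    𝒞 _ (repl G W hs.card A) := by
  obtain ⟨r, x, hr, hx, hrx⟩ := (hs.one)
  have hrange : Set.range (W.orderEmbOfFin hs.card) = (W : Set (Fin n)) :=
    Finset.range_orderEmbOfFin _ _
  refine hC.join _ _ (W : Set (Fin n)) r x hr hx ?_ ?_ ?_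
  · intro a b ha hb hab
    rw [repl_off _ _ _ _ (fun h => hb h.2)] at hab
    exact (hrx a b ha hb).1 hab
  · have h1 := hC.ext _ _ (W.orderEmbOfFin hs.card).toEmbedding A hA
    have h2 := ins_map (W.orderEmbOfFin hs.card).toEmbedding (repl G W hs.card A)
    rw [show Set.range (W.orderEmbOfFin hs.card).toEmbedding = (W : Set (Fin n)) from hrange,
      show (repl G W hs.card A).comap (W.orderEmbOfFin hs.card).toEmbedding = A from
        repl_look _ _ _ _] at h2
    rw [h2]
    exact h1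
  · refine hC.mono _ G _ ?_ hG
    rintro a b ⟨ha, hb, hab⟩
    exact (repl_off _ _ _ _ (fun h => ha h.1)).1 hab

end Pool.Agent.D0H36.BL
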