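import Pool.Agent.R814.BL.WB
import Pool.Agent.Y865.RF.Fin
import Pool.Agent.H207R2.BL.Minor
import Pool.Agent.Y655.RF.Deg

/-!
# The fifty percent law for chromatic polynomials of labelled planar graphs: definitions, statements

Author: helper36.

PAPER PROOF.  `𝒞` is a class of graphs closed under subgraphs, contractions, adding isolated vertices,
and joining two members by one edge, all nonempty members of which have a vertex of degree `≤ d`
(planar graphs: `d = 5`).  `N n` is the number of the members of `𝒞` on the vertex set `Fin n`.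

(ST) `S_STRUCT`.  For `G` in `𝒞` on `n ≥ 4` vertices let `LL` be the set of the ordered pairs of
adjacent vertices of degree `≤ D`, and `TW` the set of the ordered pairs of different vertices with the
same neighbourhood.  Then `n ≤ 2 (#LL + #TW)`, for `D = 8 d (1 + d + 2^d)`.
 (B1) the number of ordered adjacent pairs inside `S` is at most `2 d #S` (remove a vertex of degree `≤ d`
      of the induced graph); (B2) the number of the cliques contained in `S` is at most `1 + 2^d #S`.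
 (B3) Let `I`, `H` be disjoint, `N(v) ⊆ H` for `v ∈ I`, `N` injective on `I`.  Then
      `2 #I + e2(H) ≤ (2 d + 2 * 2^d) #H + 2`, `e2(H)` the number of ordered adjacent pairs inside `H`.
      Induction on `#I`: if for some `v ∈ I` there are `a ≠ b` in `N(v)`, not adjacent, pass to
      `ctr G a v` (contract `v` into `a`, `v` becomes isolated) and `I \ {v}`: the neighbourhoods of the other
      members of `I` do not change and `e2(H)` increases by `2`.  Otherwise all `N(v)` are cliques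
      inside `H`: use (B1), (B2).
 (B4) `Hi` = vertices of degree `> D`, `#Hi * D ≤ 2 d n`.  `L1` = vertices `v` not in `Hi` with a neighbour
      not in `Hi`: `#LL ≥ #L1`.  `L'` = the others: `N(v) ⊆ Hi`.  Take `R ⊆ L'` with `N` injective on `R`
      and `N(R) = N(L')`; `#R ≤ 1 + (d + 2^d) #Hi` by (B3) with `I = R`, `H = Hi`; `#TW ≥ #L' - #R`.

(RA) `S_RATIO`: `N (n+1) ≤ C n N n`.  By (ST) `(n+1) N (n+1) ≤ 2 (#{(G,u,v) : (u,v) ∈ LL} + #{.. TW})`.
 The map `(G,u,v) ↦ (v, u', (ctr G u v).comap v.succAbove, N(u), N(v))`, `u = v.succAbove u'`, is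
 injective on the first set, and `N(u), N(v) ⊆ {u, v} ∪ image of N(u')`, a set with `≤ 2 D + 2` elements; the map
 `(G,u,v) ↦ (v, u', G.comap v.succAbove)` is injective on the second set.

(FR) `S_FREE`: `T` a nonempty set of members of `𝒞` on `Fin h` which are 2-edge-connected (`TwoEdge`).  A
 site of `G` is a set `W` of `h` vertices on which `G` looks (increasing enumeration) like a member of
 `T`, with exactly one edge between `W` and its complement.  Different sites are disjoint: if `W ∩ W'` is not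
 empty and `W ≠ W'` then there are two edges between `W ∩ W'` and `W' \ W`, and these leave `W`.
 Let `A ∈ T`.  For `G` in `𝒞` on `Fin n` without site, a set `W` of `h` elements of `Fin (n + h)` and
 `x : Fin n` let `G'` be the graph on `Fin (n + h)` which is `A` on `W` and `G` on the complement, with one
 more edge between the first vertex of `W` and the image of `x`.  `(G, W, x) ↦ (G', W)` is injective and
 `G'` has at most two sites (`W`, and at most one which contains the image of `x`).  So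
 `#free n * choose (n + h) h * n ≤ 2 N (n + h) ≤ C' n^h N n`.

(PR) `S_PROD`: with no edge between `W` and the complement `P(G) = P(G|W) P(G|Wᶜ)`, with exactly one
 edge `q P(G) = (q - 1) P(G|W) P(G|Wᶜ)`.

(MN) `S_MIN`: if some member of `𝒞` has `P < 0` (or `P = 0`) at `q > 1`, one with the least number of
 vertices is 2-edge-connected, by (PR).

(BK) the book graph (two adjacent vertices joined to all the others, which are pairwise not adjacent)
 is planar, 2-edge-connected and `P > 0` for `q > 2`.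

(FL) For `T = {A, B}` with `P(A) > 0 > P(B)` replacing `A` by `B` or `B` by `A` at one site (chosen from the set
 of the sites, which does not change) is an involution which changes the sign of `P`.
-/

set_option autoImplicit false

namespace Pool.Agent.D0H36.BL

open Polynomial Pool.Agent.H207R2.BL Pool.Agent.Y865.RF

/-- contraction of `v` into `u`, the vertex `v` becomes isolated -/
abbrev ctr {V : Type} (G : SimpleGraph V) (u v : V) : SimpleGraph V := Pool.Agent.Y655.RF.ctr G u v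

theorem ctr_adj {V : Type} (G : SimpleGraph V) (u v x y : V) : (ctr G u v).Adj x y ↔
    x ≠ v ∧ y ≠ v ∧ x ≠ y ∧ (G.Adj x y ∨ (x = u ∧ G.Adj v y) ∨ (y = u ∧ G.Adj v x)) := Iff.rfl

/-- the edges of `G` inside `W` -/
def ins {V : Type} (G : SimpleGraph V) (W : Set V) : SimpleGraph V where
  Adj x y := x ∈ W ∧ y ∈ W ∧ G.Adj x y
  symm := ⟨fun _ _ h => ⟨h.2.1, h.1, h.2.2.symm⟩⟩
  loopless := ⟨fun _ h => h.2.2.ne rfl⟩

/-- the closure properties of the class `𝒞` -/
structure Cls (𝒞 : ∀ V : Type, SimpleGraph V → Prop) (d : ℕ) : Prop where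
  mono : ∀ (V : Type) (G H : SimpleGraph V), H ≤ G → 𝒞 V G → 𝒞 V H
  emb : ∀ (V W : Type) (f : V → W), Function.Injective f → ∀ G : SimpleGraph W, 𝒞 W G → 𝒞 V (G.comap f)
  ext : ∀ (V W : Type) (f : V ↪ W) (G : SimpleGraph V), 𝒞 V G → 𝒞 W (G.map f)
  ctr : ∀ (V : Type) (G : SimpleGraph V) (u v : V), G.Adj u v → 𝒞 V G → 𝒞 V (ctr G u v)
  join : ∀ (V : Type) (G : SimpleGraph V) (W : Set V) (r x : V), r ∈ W → x ∉ W →
    (∀ a b, a ∈ W → b ∉ W → G.Adj a b → a = r ∧ b = x) → 𝒞 V (ins G W) → 𝒞 V (ins G Wᶜ) → 𝒞 V G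
  deg : ∀ (V : Type) [Finite V] [Nonempty V] (G : SimpleGraph V), 𝒞 V G →
    ∃ v, (G.neighborSet v).ncard ≤ d

/-- the number of the members of `𝒞` on `Fin n` with the property `p` -/
noncomputable def cnt (𝒞 : ∀ V : Type, SimpleGraph V → Prop) (n : ℕ)
    (p : SimpleGraph (Fin n) → Prop) : ℕ := Nat.card {G : SimpleGraph (Fin n) // 𝒞 (Fin n) G ∧ p G}

/-- the number of the members of `𝒞` on `Fin n` -/
noncomputable def num (𝒞 : ∀ V : Type, SimpleGraph V → Prop) (n : ℕ) : ℕ := cnt 𝒞 n (fun _ => True)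

/-- ordered pairs of adjacent vertices of degree at most `D` -/
def LL {V : Type} (D : ℕ) (G : SimpleGraph V) : Set (V × V) :=
  {p | G.Adj p.1 p.2 ∧ (G.neighborSet p.1).ncard ≤ D ∧ (G.neighborSet p.2).ncard ≤ D}

/-- ordered pairs of different vertices with the same neighbourhood -/
def TW {V : Type} (G : SimpleGraph V) : Set (V × V) :=
  {p | p.1 ≠ p.2 ∧ G.neighborSet p.1 = G.neighborSet p.2}

/-- (ST) -/
def S_STRUCT : Prop := ∀ (𝒞 : ∀ V : Type, SimpleGraph V → Prop) (d : ℕ), Cls 𝒞 d → ∃ D : ℕ,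
  ∀ (V : Type) [Finite V] (G : SimpleGraph V), 𝒞 V G → 4 ≤ Nat.card V →
    Nat.card V ≤ 2 * ((LL D G).ncard + (TW G).ncard)

/-- (RA) -/
def S_RATIO : Prop := ∀ (𝒞 : ∀ V : Type, SimpleGraph V → Prop) (d : ℕ), Cls 𝒞 d → ∃ C : ℕ,
  ∀ n : ℕ, 4 ≤ n → num 𝒞 (n + 1) ≤ C * n * num 𝒞 n

/-- between any two complementary nonempty sets of vertices there are at least two edges -/
def TwoEdge {V : Type} (A : SimpleGraph V) : Prop := ∀ X : Set V, X.Nonempty → Xᶜ.Nonempty →
  ∃ a b c d : V, a ∈ X ∧ b ∉ X ∧ c ∈ X ∧ d ∉ X ∧ A.Adj a b ∧ A.Adj c d ∧ (a, b) ≠ (c, d)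

/-- `W` is a site of `G`: on `W` the graph `G` looks like a member of `T`, and there is exactly one edge
between `W` and its complement -/
structure Site {h n : ℕ} (T : Set (SimpleGraph (Fin h))) (G : SimpleGraph (Fin n))
    (W : Finset (Fin n)) : Prop where
  card : W.card = h
  look : G.comap (W.orderEmbOfFin card) ∈ T
  one : ∃ r x, r ∈ W ∧ x ∉ W ∧ ∀ a b, a ∈ W → b ∉ W → (G.Adj a b ↔ a = r ∧ b = x)

/-- (FR) -/
def S_FREE : Prop := ∀ (𝒞 : ∀ V : Type, SimpleGraph V → Prop) (d : ℕ), Cls 𝒞 d → ∀ (h : ℕ), 0 < h →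
  ∀ T : Set (SimpleGraph (Fin h)), T.Nonempty → (∀ A ∈ T, 𝒞 (Fin h) A ∧ TwoEdge A) →
  ∃ C : ℕ, ∀ n : ℕ, 4 ≤ n → n * cnt 𝒞 n (fun G => ∀ W, ¬ Site T G W) ≤ C * num 𝒞 n

/-- (PR) -/
def S_PROD : Prop := ∀ (V : Type) [Finite V] (G : SimpleGraph V) (W : Set V),
  ((∀ a b, a ∈ W → b ∉ W → ¬ G.Adj a b) → chr G = chr (G.induce W) * chr (G.induce Wᶜ)) ∧
  (∀ r x, r ∈ W → x ∉ W → (∀ a b, a ∈ W → b ∉ W → (G.Adj a b ↔ a = r ∧ b = x)) →
    X * chr G = (X - 1) * (chr (G.induce W) * chr (G.induce Wᶜ)))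

/-- (MN) -/
def S_MIN : Prop := ∀ (𝒞 : ∀ V : Type, SimpleGraph V → Prop) (d : ℕ), Cls 𝒞 d → ∀ q : ℝ, 1 < q →
  ((∃ (V : Type) (_ : Finite V) (G : SimpleGraph V), 𝒞 V G ∧ (chr G).eval q < 0) →
    ∃ (h : ℕ) (B : SimpleGraph (Fin h)), 2 ≤ h ∧ 𝒞 (Fin h) B ∧ TwoEdge B ∧ (chr B).eval q < 0) ∧
  ((∃ (V : Type) (_ : Finite V) (G : SimpleGraph V), 𝒞 V G ∧ (chr G).eval q = 0) →
    ∃ (h : ℕ) (B : SimpleGraph (Fin h)), 2 ≤ h ∧ 𝒞 (Fin h) B ∧ TwoEdge B ∧ (chr B).eval q = 0)

/-- the book graph on `Fin h` -/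
def book (h : ℕ) : SimpleGraph (Fin h) where
  Adj i j := i ≠ j ∧ (i.1 < 2 ∨ j.1 < 2)
  symm := ⟨fun _ _ hij => ⟨hij.1.symm, hij.2.symm⟩⟩
  loopless := ⟨fun _ hij => hij.1 rfl⟩

/-- (BK) -/
def S_BOOK : Prop := ∀ h : ℕ, 3 ≤ h → Pool.Agent.R814.BL.Cl (Fin h) (book h) ∧ TwoEdge (book h) ∧
  ∀ q : ℝ, 2 < q → 0 < (chr (book h)).eval q

/-- (CL) the class of planar graphs: no weak `K₅` and no weak `K₃₃` -/
def S_CLS : Prop := Cls Pool.Agent.R814.BL.Cl 5

end Pool.Agent.D0H36.BL
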